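import Mathlib
import Pool.Agent.Q1.Freeze

set_option autoImplicit false
open Finset

/-! Increments with arbitrary complex product weights, and the identity at a tile with an arbitrary
complex weight. `q e` is the weight of `e` open, `1 - q e` the weight of `e` closed. -/

namespace Pool.Agent.Q1

open Pool.Agent.H75.Perc Pool.Agent.H75.TwoArm Pool.Agent.H99.NC

lemma w6_inv : w6⁻¹ = 1 - w6 := by
  have hw := w6_sq
  rw [inv_eq_one_div, div_eq_iff w6_ne]
  linear_combination hw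

namespace Env

variable {X : Env}

/-- sum of the increments across the two corners in front of the tile -/
noncomputable def sIn (X : Env) (e : ℤ × ℤ) (ω : Finset (ℤ × ℤ)) : ℂ :=
  X.incO ω (in1 e) + X.incO ω (in2 e)

/-- sum of the increments across the two corners behind the tile -/
noncomputable def sOut (X : Env) (e : ℤ × ℤ) (ω : Finset (ℤ × ℤ)) : ℂ :=
  X.incO ω (nxC (in1 e)) + X.incO ω (nxC (in2 e))

lemma sOut_closed {ω : Finset (ℤ × ℤ)} (hω : ω ⊆ X.E) {e : ℤ × ℤ} (he : e ∈ X.E) (hn : e ∉ ω) :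
    X.sOut e ω = w6 * X.sIn e ω := by
  have ho := X.odd e he
  have l1 : lab (in1 e) ∈ X.E := by rw [lab_in1 e ho]; exact he
  have l2 : lab (in2 e) ∈ X.E := by rw [lab_in2 e ho]; exact he
  unfold sOut sIn
  rw [sum_out hω he, sum_two _ _ (in1_ne_in2 e), Finset.mul_sum]
  refine Finset.sum_congr rfl fun i _ => ?_
  by_cases h1 : X.z ω i = in1 e
  · have hd : X.d ω (X.z ω i) = 1 := by
      rw [h1, d_in l1]; unfold del; rw [lab_in1 e ho, if_neg hn]
    rw [if_pos (Or.inl h1), if_pos (Or.inl h1), K_succ, hd, ph_add, ph_one, mul_comm]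
  · by_cases h2 : X.z ω i = in2 e
    · have hd : X.d ω (X.z ω i) = 1 := by
        rw [h2, d_in l2]; unfold del; rw [lab_in2 e ho, if_neg hn]
      rw [if_pos (Or.inr h2), if_pos (Or.inr h2), K_succ, hd, ph_add, ph_one, mul_comm]
    · simp [h1, h2]

lemma sOut_open {ω : Finset (ℤ × ℤ)} (hω : ω ⊆ X.E) {e : ℤ × ℤ} (he : e ∈ X.E) (hn : e ∈ ω) :
    w6 * X.sOut e ω = X.sIn e ω := by
  have ho := X.odd e he
  have l1 : lab (in1 e) ∈ X.E := by rw [lab_in1 e ho]; exact he
  have l2 : lab (in2 e) ∈ X.E := by rw [lab_in2 e ho]; exact he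
  unfold sOut sIn
  rw [sum_out hω he, sum_two _ _ (in1_ne_in2 e), Finset.mul_sum]
  refine Finset.sum_congr rfl fun i _ => ?_
  have key : ∀ k : ℤ, w6 * ph (k + -1) = ph k := by
    intro k
    rw [← ph_one, ← ph_add]; congr 1; ring
  by_cases h1 : X.z ω i = in1 e
  · have hd : X.d ω (X.z ω i) = -1 := by
      rw [h1, d_in l1]; unfold del; rw [lab_in1 e ho, if_pos hn]
    rw [if_pos (Or.inl h1), if_pos (Or.inl h1), K_succ, hd, key]
  · by_cases h2 : X.z ω i = in2 e
    · have hd : X.d ω (X.z ω i) = -1 := by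
        rw [h2, d_in l2]; unfold del; rw [lab_in2 e ho, if_pos hn]
      rw [if_pos (Or.inr h2), if_pos (Or.inr h2), K_succ, hd, key]
    · simp [h1, h2]

/-- **Flip of one tile**: the sum of the increments in front of the tile is multiplied by
`e^{iπ/3}` when the label is opened. -/
lemma sIn_insert {ω : Finset (ℤ × ℤ)} (hω : ω ⊆ X.E) {e : ℤ × ℤ} (he : e ∈ X.E) (hn : e ∉ ω) :
    X.sIn e (insert e ω) = w6 * X.sIn e ω := by
  have hω' : insert e ω ⊆ X.E := insert_subset he hω
  have c1 := contrib_cast hω he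
  have c2 := contrib_cast hω' he
  have p1 := pair_cancel th th_rec hω he hn
  have p2 := pair_cancel th' th'_rec hω he hn
  have q1 : ((contrib th (X.f ω) (X.d ω) X.c0 X.k0 (X.len ω) (in1 e) (in2 e) : ℤ) : ℂ) +
      ((contrib th (X.f (insert e ω)) (X.d (insert e ω)) X.c0 X.k0 (X.len (insert e ω))
        (in1 e) (in2 e) : ℤ) : ℂ) = 0 := by exact_mod_cast p1
  have q2 : ((contrib th' (X.f ω) (X.d ω) X.c0 X.k0 (X.len ω) (in1 e) (in2 e) : ℤ) : ℂ) +
      ((contrib th' (X.f (insert e ω)) (X.d (insert e ω)) X.c0 X.k0 (X.len (insert e ω))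
        (in1 e) (in2 e) : ℤ) : ℂ) = 0 := by exact_mod_cast p2
  have s1 := sOut_closed hω he hn
  have s2 := sOut_open hω' he (mem_insert_self e ω)
  have c1' : X.sIn e ω - X.sOut e ω = -((contrib th' (X.f ω) (X.d ω) X.c0 X.k0 (X.len ω)
      (in1 e) (in2 e) : ℤ) : ℂ) + w6 * ((contrib th (X.f ω) (X.d ω) X.c0 X.k0 (X.len ω)
      (in1 e) (in2 e) : ℤ) : ℂ) := c1
  have c2' : X.sIn e (insert e ω) - X.sOut e (insert e ω) =
      -((contrib th' (X.f (insert e ω)) (X.d (insert e ω)) X.c0 X.k0 (X.len (insert e ω))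
      (in1 e) (in2 e) : ℤ) : ℂ) + w6 * ((contrib th (X.f (insert e ω)) (X.d (insert e ω)) X.c0
      X.k0 (X.len (insert e ω)) (in1 e) (in2 e) : ℤ) : ℂ) := c2
  have hsum : (X.sIn e ω - X.sOut e ω) + (X.sIn e (insert e ω) - X.sOut e (insert e ω)) = 0 := by
    rw [c1', c2']
    linear_combination w6 * q1 - q2
  have hw := w6_sq
  rw [s1] at hsum
  -- multiply by `w6` and use `w6 * sOut = sIn`
  have h2 : w6 * (X.sIn e ω - w6 * X.sIn e ω) +
      (w6 * X.sIn e (insert e ω) - X.sIn e (insert e ω)) = 0 := by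
    linear_combination w6 * hsum + s2
  linear_combination (-w6) * h2 + (X.sIn e (insert e ω) - w6 * X.sIn e ω) * hw

lemma sOut_insert {ω : Finset (ℤ × ℤ)} (hω : ω ⊆ X.E) {e : ℤ × ℤ} (he : e ∈ X.E) (hn : e ∉ ω) :
    X.sOut e (insert e ω) = X.sIn e ω := by
  have s2 := sOut_open (insert_subset he hω) he (mem_insert_self e ω)
  rw [sIn_insert hω he hn] at s2
  exact mul_left_cancel₀ w6_ne s2

variable (X) in
/-- the increment across the corner `c` with the complex product weight `q` -/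
noncomputable def incW (q : ℤ × ℤ → ℂ) (c : ℤ × ℤ) : ℂ := Ec q X.E (fun ω => X.incO ω c)

lemma incW_half (c : ℤ × ℤ) : X.incW (fun _ => 1 / 2) c = X.inc c := (inc_eq X c).symm

/-- **The identity at a random tile with an arbitrary complex weight.** -/
theorem closedW (q : ℤ × ℤ → ℂ) {e : ℤ × ℤ} (he : e ∈ X.E) :
    (w6 + q e * w6⁻¹) * (X.incW q (in1 e) + X.incW q (in2 e)) =
      (1 + q e * w6 ^ 2) * (X.incW q (nxC (in1 e)) + X.incW q (nxC (in2 e))) := by
  have hE : X.E = insert e (X.E.erase e) := (insert_erase he).symm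
  have hL : X.incW q (in1 e) + X.incW q (in2 e) = Ec q X.E (fun ω => X.sIn e ω) := by
    unfold incW sIn; rw [Ec_add]
  have hR : X.incW q (nxC (in1 e)) + X.incW q (nxC (in2 e)) =
      Ec q X.E (fun ω => X.sOut e ω) := by
    unfold incW sOut; rw [Ec_add]
  have hsplit : ∀ G : Finset (ℤ × ℤ) → ℂ, Ec q X.E G = (1 - q e) * Ec q (X.E.erase e) G +
      q e * Ec q (X.E.erase e) (fun ω => G (insert e ω)) := by
    intro G
    conv_lhs => rw [hE]
    exact Ec_insert q (notMem_erase e X.E) G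
  have hsub : ∀ ω, ω ⊆ X.E.erase e → ω ⊆ X.E ∧ e ∉ ω := fun ω h =>
    ⟨h.trans (erase_subset _ _), fun h' => notMem_erase e X.E (h h')⟩
  set s : ℂ := Ec q (X.E.erase e) (fun ω => X.sIn e ω) with hs
  have e1 : Ec q (X.E.erase e) (fun ω => X.sIn e (insert e ω)) = w6 * s := by
    rw [hs, ← Ec_smul]
    exact Ec_congr fun ω h => sIn_insert (hsub ω h).1 he (hsub ω h).2
  have e2 : Ec q (X.E.erase e) (fun ω => X.sOut e ω) = w6 * s := by
    rw [hs, ← Ec_smul]
    exact Ec_congr fun ω h => sOut_closed (hsub ω h).1 he (hsub ω h).2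
  have e3 : Ec q (X.E.erase e) (fun ω => X.sOut e (insert e ω)) = s := by
    rw [hs]
    exact Ec_congr fun ω h => sOut_insert (hsub ω h).1 he (hsub ω h).2
  rw [hL, hR, hsplit, hsplit, e1, e2, e3, w6_inv]
  have hw := w6_sq
  set t := q e
  linear_combination (s * (t ^ 2 * (w6 - 1) - t * w6)) * hw

/-- the weight of an over/under mixture -/
noncomputable def aw (k : ℂ) : ℂ := (1 - k) * w6 + k * w6⁻¹

lemma one_sub_aw (k : ℂ) : 1 - aw k = (1 - k) * w6⁻¹ + k * w6 := by
  unfold aw; rw [w6_inv]; ring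

/-- the identity at a tile with open weight `aw k` -/
theorem closed_aw (q : ℤ × ℤ → ℂ) {e : ℤ × ℤ} (he : e ∈ X.E) (k : ℂ) (hk : q e = aw k) :
    (1 - k) * (X.incW q (in1 e) + X.incW q (in2 e)) =
      k * (X.incW q (nxC (in1 e)) + X.incW q (nxC (in2 e))) := by
  have h := closedW (X := X) q he
  rw [hk] at h
  unfold aw at h
  rw [w6_inv] at h
  have hw := w6_sq
  -- multiply by the inverse of `1 + w6`
  have h3 : (1 + w6) * ((1 - k) * (X.incW q (in1 e) + X.incW q (in2 e))) =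
      (1 + w6) * (k * (X.incW q (nxC (in1 e)) + X.incW q (nxC (in2 e)))) := by
    set a := X.incW q (in1 e) + X.incW q (in2 e)
    set b := X.incW q (nxC (in1 e)) + X.incW q (nxC (in2 e))
    linear_combination h + (-(2 * k - 1) * a + ((w6 + 1) - k * (2 * w6 + 1)) * b) * hw
  have hne : (1 + w6 : ℂ) ≠ 0 := by
    intro h0
    have := congrArg Complex.re h0
    simp [w6] at this
    norm_num at this
  exact mul_left_cancel₀ hne h3

/-- the identity at a tile with open weight `1 - aw k` -/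
theorem closed_aw' (q : ℤ × ℤ → ℂ) {e : ℤ × ℤ} (he : e ∈ X.E) (k : ℂ) (hk : q e = 1 - aw k) :
    k * (X.incW q (in1 e) + X.incW q (in2 e)) =
      (1 - k) * (X.incW q (nxC (in1 e)) + X.incW q (nxC (in2 e))) := by
  have h1 : aw (1 - k) = 1 - aw k := by unfold aw; rw [w6_inv]; ring
  have := closed_aw (X := X) q he (1 - k) (by rw [hk, h1])
  rw [show 1 - (1 - k) = k by ring] at this
  exact this

end Env

end Pool.Agent.Q1
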