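import Mathlib

set_option autoImplicit false
open Finset

/-! The primitive on a flat twisted cylinder: pure algebra. The columns are indexed by `ℤ`, the functions
are quasi-periodic: `V (x + N) = μ * V x` with `μ ≠ 1`. -/

namespace Pool.Agent.Q1.M6a

/-- the primitive with its unique constant -/
noncomputable def flatH (N : ℕ) (μ : ℂ) (V : ℤ → ℂ) (x : ℤ) : ℂ :=
  (μ - 1)⁻¹ * ∑ i ∈ range N, V (x + i)

lemma flatH_succ {N : ℕ} {μ : ℂ} (hμ : μ ≠ 1) {V : ℤ → ℂ} (hV : ∀ x, V (x + N) = μ * V x)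
    (x : ℤ) : flatH N μ V (x + 1) - flatH N μ V x = V x := by
  unfold flatH
  have h1 := Finset.sum_range_succ (fun i : ℕ => V (x + i)) N
  have h2 := Finset.sum_range_succ' (fun i : ℕ => V (x + i)) N
  have h3 : ∑ i ∈ range N, V (x + 1 + i) = ∑ i ∈ range N, V (x + ((i + 1 : ℕ) : ℤ)) :=
    sum_congr rfl fun i _ => by congr 1; push_cast; ring
  have h4 : (∑ i ∈ range N, V (x + 1 + i)) - ∑ i ∈ range N, V (x + i) = (μ - 1) * V x := by
    rw [h3]
    have h5 := hV x
    simp only [Nat.cast_zero, add_zero] at h2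
    linear_combination h5 - h2 + h1
  have hne : μ - 1 ≠ 0 := sub_ne_zero.2 hμ
  rw [← mul_sub, h4, ← mul_assoc, inv_mul_cancel₀ hne, one_mul]

lemma flatH_quasi {N : ℕ} {μ : ℂ} {V : ℤ → ℂ} (hV : ∀ x, V (x + N) = μ * V x) (x : ℤ) :
    flatH N μ V (x + N) = μ * flatH N μ V x := by
  unfold flatH
  rw [mul_left_comm]
  congr 1
  rw [Finset.mul_sum]
  refine sum_congr rfl fun i _ => ?_
  rw [← hV]
  congr 1; ring

/-- the primitive is unique -/
lemma flatH_unique {N : ℕ} {μ : ℂ} (hμ : μ ≠ 1) {V H : ℤ → ℂ}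
    (hH : ∀ x, H (x + 1) - H x = V x)
    (hq : ∀ x, H (x + N) = μ * H x) (x : ℤ) : H x = flatH N μ V x := by
  have h1 : ∀ n : ℕ, ∑ i ∈ range n, V (x + i) = H (x + n) - H x := by
    intro n
    induction n with
    | zero => simp
    | succ n ih =>
      rw [sum_range_succ, ih, ← hH]
      push_cast
      rw [add_assoc]
      ring
  have hne : μ - 1 ≠ 0 := sub_ne_zero.2 hμ
  unfold flatH
  rw [h1, hq, show μ * H x - H x = (μ - 1) * H x by ring, ← mul_assoc, inv_mul_cancel₀ hne, one_mul]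

/-- **Two neighbouring levels**: if `α (V x - V' x) = β (U x - U (x - 1))` for all columns, then
`α (H x - H' x) = β U (x - 1)`. -/
lemma flatH_level {N : ℕ} {μ : ℂ} (hμ : μ ≠ 1) {V V' U : ℤ → ℂ} {α β : ℂ}
    (hU : ∀ x, U (x + N) = μ * U x)
    (h : ∀ x, α * (V x - V' x) = β * (U x - U (x - 1))) (x : ℤ) :
    α * (flatH N μ V x - flatH N μ V' x) = β * U (x - 1) := by
  have hne : μ - 1 ≠ 0 := sub_ne_zero.2 hμ
  have h1 : ∀ n : ℕ, α * ((∑ i ∈ range n, V (x + i)) - ∑ i ∈ range n, V' (x + i)) =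
      β * (U (x + n - 1) - U (x - 1)) := by
    intro n
    induction n with
    | zero => simp
    | succ n ih =>
      rw [sum_range_succ, sum_range_succ]
      have := h (x + n)
      have e : x + ((n + 1 : ℕ) : ℤ) - 1 = x + n := by push_cast; ring
      rw [e]
      linear_combination ih + this
  have h2 := h1 N
  have h3 : U (x + N - 1) = μ * U (x - 1) := by
    rw [← hU]; congr 1; ring
  rw [h3] at h2
  unfold flatH
  rw [← mul_sub]
  have : β * U (x - 1) = (μ - 1)⁻¹ * ((μ - 1) * (β * U (x - 1))) := by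
    rw [← mul_assoc, inv_mul_cancel₀ hne, one_mul]
  rw [this]
  linear_combination (μ - 1)⁻¹ * h2

end Pool.Agent.Q1.M6a
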