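import Mathlib

set_option autoImplicit false
open Finset

/-! # The remainder of a cancelled double row over an open run of caps

A straight run of caps `0, …, n-1` carries two complex rows (lower row next to the caps, upper row above
it). Gap `i` is the position just left of cap `i`, gap `n` is the right end of the run. A cap with its
four tiles is in one of five states: kept (`K`: both rows pass, the cap is kept), upper cut (`UC`: the
upper row is cut and joined with the two ends of the cap), right turn (`RU`: the rows are joined on the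
right side of the cap), left turn (`LU`), both turns (`BU`). In a broken gap the two rows are joined
with each other on the left and on the right.

`F s B` is any function of the resulting wiring, when the states are `s` and the broken gaps are `B`. It
obeys the local rules `Rules`. The sum over all states with the product of the weights `wt` is then
(`X_eq`) the term with natural caps, plus terms which are natural left of a cap `j`, plus the term `T`;
this file has the exact decomposition and the bounds which follow from the two planarity rules. -/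

namespace Pool.Agent.Q1.M6a.T2

/-- state of a cap with its four tiles -/
inductive St
  | K | UC | RU | LU | BU
  deriving DecidableEq, Fintype

/-- weight of a state -/
def wt (v w : ℂ) : St → ℂ
  | .K => 1 - v
  | .UC => v * (1 - v)
  | .RU => -(v * (1 - v))
  | .LU => w
  | .BU => v - w

lemma sum_St (f : St → ℂ) : ∑ x : St, f x = f .K + f .UC + f .RU + f .LU + f .BU := by
  have : (Finset.univ : Finset St) = {.K, .UC, .RU, .LU, .BU} := by decide
  rw [this]
  simp
  ring

lemma sum_wt (v w : ℂ) : ∑ x : St, wt v w x = 1 := by
  rw [sum_St]; simp only [wt]; ring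

variable (v w : ℕ → ℂ) (F : (ℕ → St) → Finset ℕ → ℂ)

/-- sum over the states of the caps `< m`; the states of the other caps are given by `s` -/
noncomputable def X : ℕ → (ℕ → St) → Finset ℕ → ℂ
  | 0, s, B => F s B
  | m + 1, s, B => ∑ x : St, wt (v m) (w m) x * X m (Function.update s m x) B

variable {v w F}

/-- the local rules -/
structure Rules (n : ℕ) (F : (ℕ → St) → Finset ℕ → ℂ) : Prop where
  /-- a turn on the right side of the cap: the gap on its right may be broken or not -/
  rU : ∀ s B i, i < n → (s i = .RU ∨ s i = .BU) → F s (insert (i + 1) B) = F s B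
  /-- a turn on the left side of the cap -/
  lU : ∀ s B i, i < n → (s i = .LU ∨ s i = .BU) → F s (insert i B) = F s B
  /-- the gap on the right is broken -/
  rLU : ∀ s B i, i < n → i + 1 ∈ B → F (Function.update s i .LU) B = F (Function.update s i .K) B
  rBU : ∀ s B i, i < n → i + 1 ∈ B → F (Function.update s i .BU) B = F (Function.update s i .K) B
  rRU : ∀ s B i, i < n → i + 1 ∈ B → F (Function.update s i .RU) B = F (Function.update s i .UC) B
  /-- the gap on the left is broken -/
  lLU : ∀ s B i, i < n → i ∈ B → F (Function.update s i .LU) B = F (Function.update s i .UC) B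
  /-- a broken gap passes a kept cap -/
  pass : ∀ s B i, i < n → s i = .K → F s (insert i B) = F s (insert (i + 1) B)

/-- transport of an identity through the sum -/
lemma X_congr {F' : (ℕ → St) → Finset ℕ → ℂ} {B B' : Finset ℕ} : ∀ (m : ℕ) (s s' : ℕ → St),
    (∀ t t' : ℕ → St, (∀ i, m ≤ i → t i = s i) → (∀ i, m ≤ i → t' i = s' i) →
      (∀ i, i < m → t i = t' i) → F t B = F' t' B') → X v w F m s B = X v w F' m s' B' := by
  intro m
  induction m with
  | zero =>
    intro s s' h
    exact h s s' (fun _ _ => rfl) (fun _ _ => rfl) (fun i hi => absurd hi (Nat.not_lt_zero i))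
  | succ m ih =>
    intro s s' h
    simp only [X]
    refine Finset.sum_congr rfl fun x _ => ?_
    congr 1
    apply ih
    intro t t' h1 h2 h3
    apply h
    · intro i hi
      rw [h1 i (by omega), Function.update_of_ne (by omega)]
    · intro i hi
      rw [h2 i (by omega), Function.update_of_ne (by omega)]
    · intro i hi
      rcases Nat.lt_succ_iff_lt_or_eq.1 hi with h4 | h4
      · exact h3 i h4
      · subst h4
        rw [h1 i le_rfl, h2 i le_rfl]; simp

/-- the configuration with the caps of `S` cut, all other caps `< m` kept, and `s` from `m` on -/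
def cf (m : ℕ) (S : Finset ℕ) (s : ℕ → St) : ℕ → St :=
  fun i => if i < m then (if i ∈ S then .UC else .K) else s i

lemma cf_lt {m : ℕ} {S : Finset ℕ} {s : ℕ → St} {i : ℕ} (h : i < m) :
    cf m S s i = if i ∈ S then .UC else .K := by unfold cf; rw [if_pos h]

lemma cf_ge {m : ℕ} {S : Finset ℕ} {s : ℕ → St} {i : ℕ} (h : m ≤ i) : cf m S s i = s i := by
  unfold cf; rw [if_neg (by omega)]

lemma cf_K {m : ℕ} {S : Finset ℕ} {s : ℕ → St} (hm : m ∉ S) :
    cf m S (Function.update s m .K) = cf (m + 1) S s := by
  funext i
  rcases lt_trichotomy i m with h | h | h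
  · rw [cf_lt h, cf_lt (by omega)]
  · subst h; rw [cf_ge le_rfl, cf_lt (by omega), if_neg hm]; simp
  · rw [cf_ge (by omega), cf_ge (by omega), Function.update_of_ne (by omega)]

lemma cf_UC {m : ℕ} {S : Finset ℕ} {s : ℕ → St} :
    cf m S (Function.update s m .UC) = cf (m + 1) (insert m S) s := by
  funext i
  rcases lt_trichotomy i m with h | h | h
  · rw [cf_lt h, cf_lt (by omega)]
    simp [mem_insert, h.ne]
  · subst h; rw [cf_ge le_rfl, cf_lt (by omega)]; simp
  · rw [cf_ge (by omega), cf_ge (by omega), Function.update_of_ne (by omega)]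

/-- **Everything left of a broken gap is natural.** -/
lemma X_broken {n : ℕ} (h : Rules n F) : ∀ (m : ℕ), m ≤ n → ∀ (s : ℕ → St) (B : Finset ℕ), m ∈ B →
    X v w F m s B = F (cf m ∅ s) B := by
  intro m
  induction m with
  | zero =>
    intro _ s B _
    have : cf 0 ∅ s = s := by funext i; exact cf_ge (Nat.zero_le i)
    rw [this]; rfl
  | succ m ih =>
    intro hm s B hB
    have hmn : m < n := hm
    have e1 : X v w F m (Function.update s m .LU) B = X v w F m (Function.update s m .K) B := by
      apply X_congr
      intro t t' h1 h2 h3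
      have h4 : t = Function.update t m .LU := by
        funext i
        by_cases hi : i = m
        · subst hi; rw [h1 i le_rfl]; simp
        · rw [Function.update_of_ne hi]
      have h5 : t' = Function.update t m .K := by
        funext i
        rcases lt_trichotomy i m with hi | hi | hi
        · rw [Function.update_of_ne hi.ne, h3 i hi]
        · subst hi; rw [h2 i le_rfl]; simp
        · rw [Function.update_of_ne hi.ne', h1 i hi.le, h2 i hi.le,
            Function.update_of_ne hi.ne', Function.update_of_ne hi.ne']
      rw [h5, h4, Function.update_idem]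
      exact h.rLU t B m hmn hB
    have e2 : X v w F m (Function.update s m .BU) B = X v w F m (Function.update s m .K) B := by
      apply X_congr
      intro t t' h1 h2 h3
      have h4 : t = Function.update t m .BU := by
        funext i
        by_cases hi : i = m
        · subst hi; rw [h1 i le_rfl]; simp
        · rw [Function.update_of_ne hi]
      have h5 : t' = Function.update t m .K := by
        funext i
        rcases lt_trichotomy i m with hi | hi | hi
        · rw [Function.update_of_ne hi.ne, h3 i hi]
        · subst hi; rw [h2 i le_rfl]; simp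
        · rw [Function.update_of_ne hi.ne', h1 i hi.le, h2 i hi.le,
            Function.update_of_ne hi.ne', Function.update_of_ne hi.ne']
      rw [h5, h4, Function.update_idem]
      exact h.rBU t B m hmn hB
    have e3 : X v w F m (Function.update s m .RU) B = X v w F m (Function.update s m .UC) B := by
      apply X_congr
      intro t t' h1 h2 h3
      have h4 : t = Function.update t m .RU := by
        funext i
        by_cases hi : i = m
        · subst hi; rw [h1 i le_rfl]; simp
        · rw [Function.update_of_ne hi]
      have h5 : t' = Function.update t m .UC := by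
        funext i
        rcases lt_trichotomy i m with hi | hi | hi
        · rw [Function.update_of_ne hi.ne, h3 i hi]
        · subst hi; rw [h2 i le_rfl]; simp
        · rw [Function.update_of_ne hi.ne', h1 i hi.le, h2 i hi.le,
            Function.update_of_ne hi.ne', Function.update_of_ne hi.ne']
      rw [h5, h4, Function.update_idem]
      exact h.rRU t B m hmn hB
    have e4 : X v w F m (Function.update s m .K) B =
        X v w F m (Function.update s m .K) (insert m B) := by
      apply X_congr
      intro t t' h1 h2 h3
      have h5 : t' = t := by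
        funext i
        rcases Nat.lt_or_ge i m with hi | hi
        · exact (h3 i hi).symm
        · rw [h1 i hi, h2 i hi]
      have h6 : t m = .K := by rw [h1 m le_rfl]; simp
      rw [h5, h.pass t B m hmn h6, insert_eq_of_mem hB]
    have e5 := ih (by omega) (Function.update s m .K) (insert m B) (mem_insert_self _ _)
    have e6 : F (cf m ∅ (Function.update s m .K)) (insert m B) = F (cf (m + 1) ∅ s) B := by
      rw [cf_K (notMem_empty m)]
      rw [h.pass _ B m hmn (by rw [cf_lt (by omega)]; simp), insert_eq_of_mem hB]
    show ∑ x : St, wt (v m) (w m) x * X v w F m (Function.update s m x) B = _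
    rw [sum_St, e1, e2, e3, e4, e5, e6]
    simp only [wt]
    ring

/-- alternating sum over the subsets of `C` -/
def alt (C : Finset ℕ) (G : Finset ℕ → ℂ) : ℂ := ∑ B ∈ C.powerset, (-1) ^ B.card * G B

lemma alt_insert {C : Finset ℕ} {a : ℕ} (ha : a ∉ C) (G : Finset ℕ → ℂ) :
    alt (insert a C) G = alt C G - alt C (fun B => G (insert a B)) := by
  unfold alt
  rw [Finset.sum_powerset_insert ha, sub_eq_add_neg, ← Finset.sum_neg_distrib]
  congr 1
  refine Finset.sum_congr rfl fun B hB => ?_
  have : a ∉ B := fun h => ha (mem_powerset.1 hB h)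
  rw [card_insert_of_notMem this]
  ring

lemma alt_congr {C : Finset ℕ} {G G' : Finset ℕ → ℂ} (h : ∀ B ⊆ C, G B = G' B) :
    alt C G = alt C G' :=
  Finset.sum_congr rfl fun B hB => by rw [h B (mem_powerset.1 hB)]

/-- the alternating sum vanishes when one element is irrelevant -/
lemma alt_zero {C : Finset ℕ} {a : ℕ} (ha : a ∈ C) {G : Finset ℕ → ℂ}
    (h : ∀ B ⊆ C, G (insert a B) = G B) : alt C G = 0 := by
  rw [← insert_erase ha, alt_insert (notMem_erase a C)]
  rw [sub_eq_zero]
  refine alt_congr fun B hB => (h B (hB.trans (erase_subset _ _))).symm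

lemma alt_norm {C : Finset ℕ} {G : Finset ℕ → ℂ} {M : ℝ} (h : ∀ B ⊆ C, ‖G B‖ ≤ M) :
    ‖alt C G‖ ≤ 2 ^ C.card * M := by
  unfold alt
  refine (norm_sum_le _ _).trans ?_
  calc ∑ B ∈ C.powerset, ‖(-1 : ℂ) ^ B.card * G B‖ ≤ ∑ _B ∈ C.powerset, M := by
        refine Finset.sum_le_sum fun B hB => ?_
        rw [norm_mul, norm_pow, norm_neg, norm_one, one_pow, one_mul]
        exact h B (mem_powerset.1 hB)
    _ = 2 ^ C.card * M := by
        rw [Finset.sum_const, card_powerset, nsmul_eq_mul]; push_cast; ring

variable (v F) in
/-- cuts `S` in the set `J` of caps (besides the caps of `D`), with an alternating sum over the gaps left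
of the cuts and the gap `m`; the gaps in `G` are broken -/
noncomputable def Q (J D G : Finset ℕ) (m : ℕ) (s : ℕ → St) (B : Finset ℕ) : ℂ :=
  (∏ i ∈ J, (1 - v i)) * ∑ S ∈ J.powerset, (∏ i ∈ S, v i) *
    alt (insert m S) (fun B' => F (cf m (D ∪ S) s) (G ∪ (B ∪ B')))

lemma Q_step {n : ℕ} (h : Rules n F) {J D G : Finset ℕ} {m : ℕ} (hm : m < n)
    (hJ : J ⊆ range m) (hD : D ⊆ range m) (s : ℕ → St) (B : Finset ℕ) :
    ∑ x : St, wt (v m) (w m) x * (Q v F J D G m (Function.update s m x) B -
      Q v F J D G m (Function.update s m x) (insert (m + 1) B)) =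
    Q v F (insert m J) D G (m + 1) s B := by
  have hmJ : m ∉ J := fun h1 => by have := mem_range.1 (hJ h1); omega
  have hmD : m ∉ D := fun h1 => by have := mem_range.1 (hD h1); omega
  -- the difference as one alternating sum
  have hdiff : ∀ x : St, Q v F J D G m (Function.update s m x) B -
      Q v F J D G m (Function.update s m x) (insert (m + 1) B) =
      (∏ i ∈ J, (1 - v i)) * ∑ S ∈ J.powerset, (∏ i ∈ S, v i) *
        alt (insert (m + 1) (insert m S))
          (fun B' => F (cf m (D ∪ S) (Function.update s m x)) (G ∪ (B ∪ B'))) := by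
    intro x
    unfold Q
    rw [← mul_sub, ← Finset.sum_sub_distrib]
    congr 1
    refine Finset.sum_congr rfl fun S hS => ?_
    have hS' := mem_powerset.1 hS
    have hn1 : m + 1 ∉ insert m S := by
      intro h1
      rcases mem_insert.1 h1 with h2 | h2
      · omega
      · have := mem_range.1 (hJ (hS' h2)); omega
    rw [alt_insert hn1, ← mul_sub]
    congr 3
    funext B'
    congr 1
    rw [insert_union, union_insert, union_insert, union_insert]
  have hval : ∀ S ⊆ J,
      (alt (insert (m + 1) (insert m S))
          (fun B' => F (cf m (D ∪ S) (Function.update s m .K)) (G ∪ (B ∪ B'))) =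
        alt (insert (m + 1) S) (fun B' => F (cf (m + 1) (D ∪ S) s) (G ∪ (B ∪ B')))) ∧
      (alt (insert (m + 1) (insert m S))
          (fun B' => F (cf m (D ∪ S) (Function.update s m .UC)) (G ∪ (B ∪ B'))) =
        alt (insert (m + 1) (insert m S))
          (fun B' => F (cf (m + 1) (D ∪ insert m S) s) (G ∪ (B ∪ B')))) ∧
      (alt (insert (m + 1) (insert m S))
          (fun B' => F (cf m (D ∪ S) (Function.update s m .RU)) (G ∪ (B ∪ B'))) = 0) ∧
      (alt (insert (m + 1) (insert m S))
          (fun B' => F (cf m (D ∪ S) (Function.update s m .LU)) (G ∪ (B ∪ B'))) = 0) ∧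
      (alt (insert (m + 1) (insert m S))
          (fun B' => F (cf m (D ∪ S) (Function.update s m .BU)) (G ∪ (B ∪ B'))) = 0) := by
    intro S hS
    have hmS : m ∉ S := fun h1 => hmJ (hS h1)
    have hm1S : m + 1 ∉ S := fun h1 => by have := mem_range.1 (hJ (hS h1)); omega
    have hn1 : m + 1 ∉ insert m S := by
      intro h1
      rcases mem_insert.1 h1 with h2 | h2
      · omega
      · exact hm1S h2
    have hDS : m ∉ D ∪ S := fun h1 => by
      rcases mem_union.1 h1 with h2 | h2
      · exact hmD h2
      · exact hmS h2
    have hat : ∀ x : St, cf m (D ∪ S) (Function.update s m x) m = x := by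
      intro x; rw [cf_ge le_rfl]; simp
    refine ⟨?_, ?_, ?_, ?_, ?_⟩
    · rw [cf_K hDS, alt_insert hn1, alt_insert hmS, alt_insert hmS, alt_insert hm1S]
      have hK : cf (m + 1) (D ∪ S) s m = .K := by rw [← cf_K hDS]; exact hat .K
      have e1 : ∀ B' : Finset ℕ, F (cf (m + 1) (D ∪ S) s) (G ∪ (B ∪ insert m B')) =
          F (cf (m + 1) (D ∪ S) s) (G ∪ (B ∪ insert (m + 1) B')) := by
        intro B'
        rw [union_insert, union_insert, union_insert, union_insert]
        exact h.pass _ _ m hm hK
      have e2 : ∀ B' : Finset ℕ, F (cf (m + 1) (D ∪ S) s) (G ∪ (B ∪ insert (m + 1) (insert m B'))) =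
          F (cf (m + 1) (D ∪ S) s) (G ∪ (B ∪ insert (m + 1) B')) := by
        intro B'
        rw [Finset.insert_comm, e1, Finset.insert_idem]
      simp only [e1, e2]
      ring
    · rw [cf_UC]
      have : insert m (D ∪ S) = D ∪ insert m S := by rw [union_insert]
      rw [this]
    · apply alt_zero (mem_insert_self (m + 1) _)
      intro B' _
      rw [union_insert, union_insert]
      exact h.rU _ _ m hm (Or.inl (hat .RU))
    · apply alt_zero (mem_insert_of_mem (mem_insert_self m _))
      intro B' _
      rw [union_insert, union_insert]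
      exact h.lU _ _ m hm (Or.inl (hat .LU))
    · apply alt_zero (mem_insert_self (m + 1) _)
      intro B' _
      rw [union_insert, union_insert]
      exact h.rU _ _ m hm (Or.inr (hat .BU))
  rw [sum_St, hdiff, hdiff, hdiff, hdiff, hdiff]
  have z1 : ∑ S ∈ J.powerset, (∏ i ∈ S, v i) * alt (insert (m + 1) (insert m S))
      (fun B' => F (cf m (D ∪ S) (Function.update s m .RU)) (G ∪ (B ∪ B'))) = 0 :=
    Finset.sum_eq_zero fun S hS => by rw [(hval S (mem_powerset.1 hS)).2.2.1, mul_zero]
  have z2 : ∑ S ∈ J.powerset, (∏ i ∈ S, v i) * alt (insert (m + 1) (insert m S))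
      (fun B' => F (cf m (D ∪ S) (Function.update s m .LU)) (G ∪ (B ∪ B'))) = 0 :=
    Finset.sum_eq_zero fun S hS => by rw [(hval S (mem_powerset.1 hS)).2.2.2.1, mul_zero]
  have z3 : ∑ S ∈ J.powerset, (∏ i ∈ S, v i) * alt (insert (m + 1) (insert m S))
      (fun B' => F (cf m (D ∪ S) (Function.update s m .BU)) (G ∪ (B ∪ B'))) = 0 :=
    Finset.sum_eq_zero fun S hS => by rw [(hval S (mem_powerset.1 hS)).2.2.2.2, mul_zero]
  have z4 : ∑ S ∈ J.powerset, (∏ i ∈ S, v i) * alt (insert (m + 1) (insert m S))
      (fun B' => F (cf m (D ∪ S) (Function.update s m .K)) (G ∪ (B ∪ B'))) =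
      ∑ S ∈ J.powerset, (∏ i ∈ S, v i) *
        alt (insert (m + 1) S) (fun B' => F (cf (m + 1) (D ∪ S) s) (G ∪ (B ∪ B'))) :=
    Finset.sum_congr rfl fun S hS => by rw [(hval S (mem_powerset.1 hS)).1]
  have z5 : ∑ S ∈ J.powerset, (∏ i ∈ S, v i) * alt (insert (m + 1) (insert m S))
      (fun B' => F (cf m (D ∪ S) (Function.update s m .UC)) (G ∪ (B ∪ B'))) =
      ∑ S ∈ J.powerset, (∏ i ∈ S, v i) *
        alt (insert (m + 1) (insert m S))
          (fun B' => F (cf (m + 1) (D ∪ insert m S) s) (G ∪ (B ∪ B'))) :=
    Finset.sum_congr rfl fun S hS => by rw [(hval S (mem_powerset.1 hS)).2.1]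
  rw [z1, z2, z3, z4, z5]
  unfold Q
  rw [Finset.sum_powerset_insert hmJ, Finset.prod_insert hmJ]
  have z6 : ∑ S ∈ J.powerset, (∏ i ∈ insert m S, v i) * alt (insert (m + 1) (insert m S))
      (fun B' => F (cf (m + 1) (D ∪ insert m S) s) (G ∪ (B ∪ B'))) =
      v m * ∑ S ∈ J.powerset, (∏ i ∈ S, v i) * alt (insert (m + 1) (insert m S))
        (fun B' => F (cf (m + 1) (D ∪ insert m S) s) (G ∪ (B ∪ B'))) := by
    rw [Finset.mul_sum]
    refine Finset.sum_congr rfl fun S hS => ?_
    have hmS : m ∉ S := fun h1 => hmJ (mem_powerset.1 hS h1)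
    rw [Finset.prod_insert hmS]
    ring
  rw [z6]
  simp only [wt]
  ring

lemma cf_update (m : ℕ) (S : Finset ℕ) (s : ℕ → St) (x : St) :
    cf m S (Function.update s m x) = Function.update (cf m S s) m x := by
  funext i
  rcases lt_trichotomy i m with h | h | h
  · rw [cf_lt h, Function.update_of_ne (by omega), cf_lt h]
  · subst h; rw [cf_ge le_rfl]; simp
  · rw [cf_ge (by omega), Function.update_of_ne (by omega), Function.update_of_ne (by omega),
      cf_ge (by omega)]

/-- the term of the first cut (seen from the left): the gap left of it is broken -/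
lemma first_term {n : ℕ} (h : Rules n F) {m : ℕ} (hm : m < n) (s : ℕ → St) (B : Finset ℕ) :
    ∑ x : St, wt (v m) (w m) x * (F (cf m ∅ (Function.update s m x)) (insert m B) -
      F (cf m ∅ (Function.update s m x)) (insert m (insert (m + 1) B))) =
    (v m * (1 - v m) + w m) * Q v F (Ioo m (m + 1)) {m} {m} (m + 1) s B := by
  have hat : ∀ x : St, cf m ∅ (Function.update s m x) m = x := by
    intro x; rw [cf_ge le_rfl]; simp
  have hI : Ioo m (m + 1) = ∅ := by
    ext i; simp only [mem_Ioo, notMem_empty, iff_false]; omega
  have hQ : Q v F (Ioo m (m + 1)) {m} {m} (m + 1) s B =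
      F (cf m ∅ (Function.update s m .UC)) (insert m B) -
      F (cf m ∅ (Function.update s m .UC)) (insert m (insert (m + 1) B)) := by
    unfold Q
    rw [hI, cf_UC]
    have h0 : m + 1 ∉ (∅ : Finset ℕ) := notMem_empty _
    rw [Finset.powerset_empty, Finset.sum_singleton, Finset.prod_empty, Finset.prod_empty, one_mul,
      one_mul, alt_insert h0]
    unfold alt
    rw [Finset.powerset_empty, Finset.sum_singleton, Finset.sum_singleton]
    simp only [card_empty, pow_zero, one_mul, union_empty, insert_empty_eq]
    rw [Finset.singleton_union, Finset.singleton_union, Finset.union_singleton]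
  have hK : F (cf m ∅ (Function.update s m .K)) (insert m (insert (m + 1) B)) =
      F (cf m ∅ (Function.update s m .K)) (insert m B) := by
    rw [h.pass _ _ m hm (hat .K), h.pass _ _ m hm (hat .K), Finset.insert_idem]
  have hR : F (cf m ∅ (Function.update s m .RU)) (insert m (insert (m + 1) B)) =
      F (cf m ∅ (Function.update s m .RU)) (insert m B) := by
    rw [Finset.insert_comm]
    exact h.rU _ _ m hm (Or.inl (hat .RU))
  have hB : F (cf m ∅ (Function.update s m .BU)) (insert m (insert (m + 1) B)) =
      F (cf m ∅ (Function.update s m .BU)) (insert m B) := by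
    rw [Finset.insert_comm]
    exact h.rU _ _ m hm (Or.inr (hat .BU))
  have hL : ∀ C : Finset ℕ, F (cf m ∅ (Function.update s m .LU)) (insert m C) =
      F (cf m ∅ (Function.update s m .UC)) (insert m C) := by
    intro C
    rw [cf_update, cf_update]
    exact h.lLU _ _ m hm (mem_insert_self _ _)
  rw [sum_St, hK, hR, hB, hL, hL, hQ]
  simp only [wt]
  ring

/-- **The exact decomposition of the double row.** -/
theorem X_eq {n : ℕ} (h : Rules n F) : ∀ (m : ℕ), m ≤ n → ∀ (s : ℕ → St) (B : Finset ℕ),
    X v w F m s B = F (cf m ∅ s) (insert m B) +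
      ∑ j ∈ range m, (v j * (1 - v j) + w j) * Q v F (Ioo j m) {j} {j} m s B +
      Q v F (range m) ∅ ∅ m s B := by
  intro m
  induction m with
  | zero =>
    intro _ s B
    have h0 : cf 0 ∅ s = s := by funext i; exact cf_ge (Nat.zero_le i)
    have h1 : (0 : ℕ) ∉ (∅ : Finset ℕ) := notMem_empty _
    unfold Q
    rw [Finset.range_zero, Finset.sum_empty, Finset.powerset_empty, Finset.sum_singleton,
      Finset.prod_empty, Finset.prod_empty, one_mul, one_mul, alt_insert h1]
    unfold alt
    rw [Finset.powerset_empty, Finset.sum_singleton, Finset.sum_singleton]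
    simp only [card_empty, pow_zero, one_mul, union_empty, insert_empty_eq, empty_union,
      Finset.union_singleton, h0, X]
    ring
  | succ m ih =>
    intro hm s B
    have hmn : m < n := hm
    have e1 : X v w F (m + 1) s B = X v w F (m + 1) s (insert (m + 1) B) +
        ∑ x : St, wt (v m) (w m) x * (X v w F m (Function.update s m x) B -
          X v w F m (Function.update s m x) (insert (m + 1) B)) := by
      simp only [X, mul_sub, Finset.sum_sub_distrib]
      ring
    rw [e1, X_broken h (m + 1) hm s _ (mem_insert_self _ _)]
    have e2 : ∀ x : St, wt (v m) (w m) x * (X v w F m (Function.update s m x) B -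
          X v w F m (Function.update s m x) (insert (m + 1) B)) =
        wt (v m) (w m) x * (F (cf m ∅ (Function.update s m x)) (insert m B) -
          F (cf m ∅ (Function.update s m x)) (insert m (insert (m + 1) B))) +
        ∑ j ∈ range m, (v j * (1 - v j) + w j) * (wt (v m) (w m) x *
          (Q v F (Ioo j m) {j} {j} m (Function.update s m x) B -
            Q v F (Ioo j m) {j} {j} m (Function.update s m x) (insert (m + 1) B))) +
        wt (v m) (w m) x * (Q v F (range m) ∅ ∅ m (Function.update s m x) B -
            Q v F (range m) ∅ ∅ m (Function.update s m x) (insert (m + 1) B)) := by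
      intro x
      rw [ih (by omega), ih (by omega)]
      have e3 : ∑ j ∈ range m, (v j * (1 - v j) + w j) * (wt (v m) (w m) x *
          (Q v F (Ioo j m) {j} {j} m (Function.update s m x) B -
            Q v F (Ioo j m) {j} {j} m (Function.update s m x) (insert (m + 1) B))) =
          wt (v m) (w m) x * (∑ j ∈ range m, (v j * (1 - v j) + w j) *
            Q v F (Ioo j m) {j} {j} m (Function.update s m x) B -
          ∑ j ∈ range m, (v j * (1 - v j) + w j) *
            Q v F (Ioo j m) {j} {j} m (Function.update s m x) (insert (m + 1) B)) := by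
        rw [← Finset.sum_sub_distrib, Finset.mul_sum]
        exact Finset.sum_congr rfl fun j _ => by ring
      rw [e3]
      ring
    rw [Finset.sum_congr rfl fun x _ => e2 x, Finset.sum_add_distrib, Finset.sum_add_distrib,
      first_term h hmn, Q_step h hmn (le_refl _) (empty_subset _), Finset.sum_comm]
    have e4 : ∀ j ∈ range m, ∑ x : St, (v j * (1 - v j) + w j) * (wt (v m) (w m) x *
          (Q v F (Ioo j m) {j} {j} m (Function.update s m x) B -
            Q v F (Ioo j m) {j} {j} m (Function.update s m x) (insert (m + 1) B))) =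
        (v j * (1 - v j) + w j) * Q v F (Ioo j (m + 1)) {j} {j} (m + 1) s B := by
      intro j hj
      have hj' := mem_range.1 hj
      rw [← Finset.mul_sum, Q_step h hmn]
      · have : insert m (Ioo j m) = Ioo j (m + 1) := by
          ext i; simp only [mem_insert, mem_Ioo]; omega
        rw [this]
      · intro i hi; rw [mem_range]; exact (mem_Ioo.1 hi).2
      · intro i hi; rw [mem_singleton] at hi; rw [hi]; exact hj
    rw [Finset.sum_congr rfl e4, Finset.sum_range_succ, ← Finset.range_add_one]
    ring

end Pool.Agent.Q1.M6a.T2
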