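import Mathlib
import Pool.Agent.Q1.M6a.T2Sum

set_option autoImplicit false
open Finset

/-! # Bounds for the remainder of a cancelled double row -/

namespace Pool.Agent.Q1.M6a.T2

section SumBound

variable {ι : Type*} [DecidableEq ι] (v : ℕ → ℂ) (st : ℕ → ι)

/-- a class of caps of which at most one can be cut -/
lemma one_class {C J : Finset ℕ} {Φ : Finset ℕ → ℂ} (hd : Disjoint C J) :
    (∀ S ⊆ C ∪ J, ∀ i ∈ S, ∀ j ∈ S, i ∈ C → j ∈ C → i ≠ j → Φ S = 0) →
    ∑ S ∈ (C ∪ J).powerset, (∏ i ∈ S, v i) * Φ S =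
      ∑ S ∈ J.powerset, (∏ i ∈ S, v i) * (Φ S + ∑ i ∈ C, v i * Φ (insert i S)) := by
  induction C using Finset.induction_on generalizing Φ with
  | empty => intro _; simp
  | insert a C haC ih =>
    intro h
    have hd' : Disjoint C J := hd.mono_left (subset_insert _ _)
    have haJ : a ∉ J := fun h1 => (disjoint_left.1 hd) (mem_insert_self _ _) h1
    have haU : a ∉ C ∪ J := by
      intro h1
      rcases mem_union.1 h1 with h2 | h2
      · exact haC h2
      · exact haJ h2
    rw [insert_union, Finset.sum_powerset_insert haU]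
    have e1 := ih (Φ := Φ) hd' (fun S hS i hi j hj h1 h2 h3 =>
      h S (hS.trans (by rw [insert_union]; exact subset_insert _ _)) i hi j hj
        (mem_insert_of_mem h1) (mem_insert_of_mem h2) h3)
    have e2 := ih (Φ := fun S => Φ (insert a S)) hd' (fun S hS i hi j hj h1 h2 h3 =>
      h (insert a S) (by rw [insert_union]; exact insert_subset_insert _ hS) i
        (mem_insert_of_mem hi) j (mem_insert_of_mem hj)
        (mem_insert_of_mem h1) (mem_insert_of_mem h2) h3)
    have e3 : ∑ S ∈ (C ∪ J).powerset, (∏ i ∈ insert a S, v i) * Φ (insert a S) =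
        v a * ∑ S ∈ (C ∪ J).powerset, (∏ i ∈ S, v i) * Φ (insert a S) := by
      rw [Finset.mul_sum]
      refine Finset.sum_congr rfl fun S hS => ?_
      have : a ∉ S := fun h1 => haU (mem_powerset.1 hS h1)
      rw [Finset.prod_insert this]; ring
    have e4 : ∑ S ∈ J.powerset, (∏ i ∈ S, v i) *
        (Φ (insert a S) + ∑ i ∈ C, v i * Φ (insert a (insert i S))) =
        ∑ S ∈ J.powerset, (∏ i ∈ S, v i) * Φ (insert a S) := by
      refine Finset.sum_congr rfl fun S hS => ?_
      have : ∑ i ∈ C, v i * Φ (insert a (insert i S)) = 0 := by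
        refine Finset.sum_eq_zero fun i hi => ?_
        rw [h (insert a (insert i S)) ?_ a (mem_insert_self _ _) i
          (mem_insert_of_mem (mem_insert_self _ _)) (mem_insert_self _ _) (mem_insert_of_mem hi)
          (fun h1 => haC (h1 ▸ hi)), mul_zero]
        rw [insert_union]
        refine insert_subset_insert _ (insert_subset (mem_union_left _ hi) ?_)
        exact (mem_powerset.1 hS).trans subset_union_right
      rw [this, add_zero]
    rw [e3, e1, e2, e4, Finset.mul_sum, ← Finset.sum_add_distrib]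
    refine Finset.sum_congr rfl fun S hS => ?_
    rw [Finset.sum_insert haC]
    ring

/-- the caps of the strand `σ` in `J` -/
def cl (J : Finset ℕ) (σ : ι) : Finset ℕ := J.filter (fun i => st i = σ)

/-- factor of a strand: `dead` strands cannot be cut, closed strands (`¬ vis`) do not notice one cut -/
noncomputable def fac (dead vis : ι → Prop) [DecidablePred dead] [DecidablePred vis]
    (J : Finset ℕ) (σ : ι) : ℝ :=
  if dead σ then 1 else if vis σ then 1 + 2 * ∑ i ∈ cl st J σ, ‖v i‖
    else ‖1 + ∑ i ∈ cl st J σ, v i‖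

lemma fac_nonneg (dead vis : ι → Prop) [DecidablePred dead] [DecidablePred vis]
    (J : Finset ℕ) (σ : ι) : 0 ≤ fac v st dead vis J σ := by
  unfold fac
  split_ifs
  · norm_num
  · have : 0 ≤ ∑ i ∈ cl st J σ, ‖v i‖ := Finset.sum_nonneg fun _ _ => norm_nonneg _
    linarith
  · exact norm_nonneg _

/-- **Resummation over the cuts, strand by strand.** -/
theorem sum_bound (dead vis : ι → Prop) [DecidablePred dead] [DecidablePred vis]
    (J : Finset ℕ) (U : Finset ι) : ∀ (Φ : Finset ℕ → ℂ) (M : ℝ),
    (∀ S ⊆ J.filter (fun i => st i ∈ U), ∀ i ∈ S, dead (st i) → Φ S = 0) →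
    (∀ S ⊆ J.filter (fun i => st i ∈ U), ∀ i ∈ S, ∀ j ∈ S, st i = st j → i ≠ j → Φ S = 0) →
    (∀ S ⊆ J.filter (fun i => st i ∈ U), ∀ i ∈ S, ¬ dead (st i) → ¬ vis (st i) →
      (∀ j ∈ S, st j = st i → j = i) → Φ S = Φ (S.erase i)) →
    (∀ S ⊆ J.filter (fun i => st i ∈ U), ‖Φ S‖ ≤ M * 2 ^ S.card) →
    ‖∑ S ∈ (J.filter (fun i => st i ∈ U)).powerset, (∏ i ∈ S, v i) * Φ S‖ ≤
      M * ∏ σ ∈ U, fac v st dead vis J σ := by
  induction U using Finset.induction_on with
  | empty =>
    intro Φ M _ _ _ h4
    have h0 : J.filter (fun i => st i ∈ (∅ : Finset ι)) = ∅ := by simp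
    rw [h0] at h4 ⊢
    have := h4 ∅ (le_refl _)
    simpa using this
  | insert σ U hσ ih =>
    intro Φ M hdead h1 h2 h4
    have hsplit : J.filter (fun i => st i ∈ insert σ U) =
        cl st J σ ∪ J.filter (fun i => st i ∈ U) := by
      ext i
      simp only [cl, mem_filter, mem_insert, mem_union]
      tauto
    have hdis : Disjoint (cl st J σ) (J.filter (fun i => st i ∈ U)) := by
      rw [disjoint_left]
      intro i hi hi'
      simp only [cl, mem_filter] at hi hi'
      exact hσ (hi.2 ▸ hi'.2)
    have hst : ∀ i ∈ cl st J σ, st i = σ := fun i hi => (mem_filter.1 hi).2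
    rw [hsplit] at hdead h1 h2 h4 ⊢
    rw [one_class v hdis (fun S hS i hi j hj hiC hjC hij =>
      h1 S hS i hi j hj ((hst i hiC).trans (hst j hjC).symm) hij)]
    have hsubJ : ∀ S ⊆ J.filter (fun i => st i ∈ U), S ⊆ cl st J σ ∪ J.filter (fun i => st i ∈ U) :=
      fun S hS => hS.trans subset_union_right
    have hins : ∀ S ⊆ J.filter (fun i => st i ∈ U), ∀ a ∈ cl st J σ,
        insert a S ⊆ cl st J σ ∪ J.filter (fun i => st i ∈ U) := fun S hS a ha =>
      insert_subset (mem_union_left _ ha) (hsubJ S hS)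
    have haS : ∀ S ⊆ J.filter (fun i => st i ∈ U), ∀ a ∈ cl st J σ, a ∉ S := fun S hS a ha h5 =>
      (disjoint_left.1 hdis) ha (hS h5)
    have hne : ∀ S ⊆ J.filter (fun i => st i ∈ U), ∀ a ∈ cl st J σ, ∀ i ∈ S, st i ≠ st a := by
      intro S hS a ha i hi h5
      have h6 := (mem_filter.1 (hS hi)).2
      rw [h5, hst a ha] at h6
      exact hσ h6
    rw [Finset.prod_insert hσ]
    by_cases hdσ : dead σ
    · -- dead strand
      have e1 : ∑ S ∈ (J.filter (fun i => st i ∈ U)).powerset, (∏ i ∈ S, v i) *
          (Φ S + ∑ i ∈ cl st J σ, v i * Φ (insert i S)) =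
          ∑ S ∈ (J.filter (fun i => st i ∈ U)).powerset, (∏ i ∈ S, v i) * Φ S := by
        refine Finset.sum_congr rfl fun S hS => ?_
        have hS' := mem_powerset.1 hS
        rw [Finset.sum_eq_zero, add_zero]
        intro i hi
        rw [hdead _ (hins S hS' i hi) i (mem_insert_self _ _) (by rw [hst i hi]; exact hdσ), mul_zero]
      rw [e1]
      have e2 : fac v st dead vis J σ = 1 := by unfold fac; rw [if_pos hdσ]
      rw [e2, one_mul]
      exact ih Φ M (fun S hS => hdead S (hsubJ S hS)) (fun S hS => h1 S (hsubJ S hS))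
        (fun S hS => h2 S (hsubJ S hS)) (fun S hS => h4 S (hsubJ S hS))
    · by_cases hv : vis σ
      · -- visible strand
        have e2 : fac v st dead vis J σ = 1 + 2 * ∑ i ∈ cl st J σ, ‖v i‖ := by
          unfold fac; rw [if_neg hdσ, if_pos hv]
        rw [e2, ← mul_assoc]
        refine ih (fun S => Φ S + ∑ i ∈ cl st J σ, v i * Φ (insert i S)) _ ?_ ?_ ?_ ?_
        · intro S hS i hi h5
          have : ∑ a ∈ cl st J σ, v a * Φ (insert a S) = 0 := by
            refine Finset.sum_eq_zero fun a ha => ?_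
            rw [hdead _ (hins S hS a ha) i (mem_insert_of_mem hi) h5, mul_zero]
          simp only [this, add_zero]
          exact hdead S (hsubJ S hS) i hi h5
        · intro S hS i hi j hj h5 h6
          have : ∑ a ∈ cl st J σ, v a * Φ (insert a S) = 0 := by
            refine Finset.sum_eq_zero fun a ha => ?_
            rw [h1 _ (hins S hS a ha) i (mem_insert_of_mem hi) j (mem_insert_of_mem hj) h5 h6,
              mul_zero]
          simp only [this, add_zero]
          exact h1 S (hsubJ S hS) i hi j hj h5 h6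
        · intro S hS i hi h5' h5 h6
          have e3 := h2 S (hsubJ S hS) i hi h5' h5 h6
          simp only [e3]
          congr 1
          refine Finset.sum_congr rfl fun a ha => ?_
          have hai : a ≠ i := fun h7 => haS S hS a ha (h7 ▸ hi)
          rw [h2 _ (hins S hS a ha) i (mem_insert_of_mem hi) h5' h5, erase_insert_of_ne hai]
          intro j hj h7
          rcases mem_insert.1 hj with h8 | h8
          · exfalso
            rw [h8] at h7
            exact hne S hS a ha i hi h7.symm
          · exact h6 j h8 h7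
        · intro S hS
          have b1 := h4 S (hsubJ S hS)
          have b2 : ‖∑ i ∈ cl st J σ, v i * Φ (insert i S)‖ ≤
              ∑ i ∈ cl st J σ, ‖v i‖ * (M * 2 ^ (S.card + 1)) := by
            refine (norm_sum_le _ _).trans (Finset.sum_le_sum fun i hi => ?_)
            rw [norm_mul]
            refine mul_le_mul_of_nonneg_left ?_ (norm_nonneg _)
            have := h4 _ (hins S hS i hi)
            rwa [card_insert_of_notMem (haS S hS i hi)] at this
          calc ‖Φ S + ∑ i ∈ cl st J σ, v i * Φ (insert i S)‖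
              ≤ ‖Φ S‖ + ‖∑ i ∈ cl st J σ, v i * Φ (insert i S)‖ := norm_add_le _ _
            _ ≤ M * 2 ^ S.card + ∑ i ∈ cl st J σ, ‖v i‖ * (M * 2 ^ (S.card + 1)) := by
                linarith
            _ = M * (1 + 2 * ∑ i ∈ cl st J σ, ‖v i‖) * 2 ^ S.card := by
                rw [← Finset.sum_mul]; ring
      · -- closed strand
        have e2 : fac v st dead vis J σ = ‖1 + ∑ i ∈ cl st J σ, v i‖ := by
          unfold fac; rw [if_neg hdσ, if_neg hv]
        have e3 : ∑ S ∈ (J.filter (fun i => st i ∈ U)).powerset, (∏ i ∈ S, v i) *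
            (Φ S + ∑ i ∈ cl st J σ, v i * Φ (insert i S)) =
            (1 + ∑ i ∈ cl st J σ, v i) *
              ∑ S ∈ (J.filter (fun i => st i ∈ U)).powerset, (∏ i ∈ S, v i) * Φ S := by
          rw [Finset.mul_sum]
          refine Finset.sum_congr rfl fun S hS => ?_
          have hS' := mem_powerset.1 hS
          have : ∑ i ∈ cl st J σ, v i * Φ (insert i S) = (∑ i ∈ cl st J σ, v i) * Φ S := by
            rw [Finset.sum_mul]
            refine Finset.sum_congr rfl fun i hi => ?_
            rw [h2 _ (hins S hS' i hi) i (mem_insert_self _ _) (by rw [hst i hi]; exact hdσ)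
              (by rw [hst i hi]; exact hv), erase_insert (haS S hS' i hi)]
            intro j hj h7
            rcases mem_insert.1 hj with h8 | h8
            · exact h8
            · exact absurd h7 (hne S hS' i hi j h8)
          rw [this]; ring
        rw [e3, norm_mul, e2]
        have b := ih Φ M (fun S hS => hdead S (hsubJ S hS)) (fun S hS => h1 S (hsubJ S hS))
          (fun S hS => h2 S (hsubJ S hS)) (fun S hS => h4 S (hsubJ S hS))
        calc ‖1 + ∑ i ∈ cl st J σ, v i‖ *
              ‖∑ S ∈ (J.filter (fun i => st i ∈ U)).powerset, (∏ i ∈ S, v i) * Φ S‖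
            ≤ ‖1 + ∑ i ∈ cl st J σ, v i‖ * (M * ∏ σ ∈ U, fac v st dead vis J σ) :=
              mul_le_mul_of_nonneg_left b (norm_nonneg _)
          _ = _ := by ring

end SumBound

variable {v w : ℕ → ℂ} {F : (ℕ → St) → Finset ℕ → ℂ} {ι : Type*} {st : ℕ → ι}
  {dead vis : ι → Prop} {n : ℕ} {s : ℕ → St}

/-- The planarity rules: `st i` is the natural strand through the cap `i`, `vis` are the strands which
are not closed in the layer, `dead` is the strand (if any) which is joined with the right end of the lower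
row. If two caps `i < j` of a strand are cut, then the breaks between them are irrelevant; one cut of a
closed strand is irrelevant; if a dead strand is cut, then the breaks right of the cut are irrelevant. -/
structure Planar (n : ℕ) (F : (ℕ → St) → Finset ℕ → ℂ) (st : ℕ → ι) (dead vis : ι → Prop)
    (s : ℕ → St) : Prop where
  two : ∀ S ⊆ range n, ∀ B : Finset ℕ, ∀ i ∈ S, ∀ j ∈ S, i < j → st i = st j →
    F (cf n S s) (insert j B) = F (cf n S s) B
  one : ∀ S ⊆ range n, ∀ B : Finset ℕ, ∀ i ∈ S, ¬ vis (st i) →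
    (∀ j ∈ S, st j = st i → j = i) → F (cf n S s) B = F (cf n (S.erase i) s) B
  fin : ∀ S ⊆ range n, ∀ B : Finset ℕ, ∀ i ∈ S, dead (st i) →
    F (cf n S s) (insert n B) = F (cf n S s) B

/-- a broken gap passes a run of kept caps -/
lemma pass_run (h : Rules n F) {t : ℕ → St} {i k : ℕ} (hik : i ≤ k) (hk : k ≤ n)
    (hK : ∀ a, i ≤ a → a < k → t a = .K) (B : Finset ℕ) :
    F t (insert i B) = F t (insert k B) := by
  induction k, hik using Nat.le_induction with
  | base => rfl
  | succ k hik ih =>
    rw [ih (by omega) (fun a h1 h2 => hK a h1 (by omega))]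
    exact h.pass t B k (by omega) (hK k hik (by omega))

lemma exists_next {S : Finset ℕ} {i : ℕ} (hi : i < n) (hS : S ⊆ range n) :
    ∃ k ∈ insert n S, i < k ∧ k ≤ n ∧ ∀ a, i < a → a < k → a ∉ S := by
  have hne : ((insert n S).filter (fun a => i < a)).Nonempty :=
    ⟨n, mem_filter.2 ⟨mem_insert_self _ _, hi⟩⟩
  set k := ((insert n S).filter (fun a => i < a)).min' hne with hk
  have hkm := Finset.min'_mem _ hne
  rw [← hk, mem_filter] at hkm
  refine ⟨k, hkm.1, hkm.2, ?_, ?_⟩
  · rcases mem_insert.1 hkm.1 with h1 | h1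
    · exact h1.le
    · exact (mem_range.1 (hS h1)).le
  · intro a h1 h2 h3
    have h4 : a ∈ (insert n S).filter (fun a => i < a) :=
      mem_filter.2 ⟨mem_insert_of_mem h3, h1⟩
    have := Finset.min'_le _ a h4
    rw [← hk] at this
    omega

/-- a break left of a kept cap is irrelevant in an alternating sum (`D` more cuts, left of the cap) -/
lemma alt_dead (h : Rules n F) {S D : Finset ℕ} (hS : S ⊆ range n) {i : ℕ} (hi : i < n)
    (hiS : i ∉ S) (hD : ∀ a ∈ D, a < i) (C : Finset ℕ) :
    alt (insert n S) (fun B => F (cf n (D ∪ S) s) (insert i (C ∪ B))) = 0 := by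
  obtain ⟨k, hk, hik, hkn, hfree⟩ := exists_next hi hS
  refine alt_zero hk fun B _ => ?_
  have hK : ∀ a, i ≤ a → a < k → cf n (D ∪ S) s a = .K := by
    intro a h1 h2
    rw [cf_lt (by omega), if_neg]
    intro h3
    rcases mem_union.1 h3 with h5 | h5
    · have := hD a h5; omega
    · rcases eq_or_lt_of_le h1 with h4 | h4
      · exact hiS (h4 ▸ h5)
      · exact hfree a h4 h2 h5
  rw [union_insert, pass_run h hik.le hkn hK, pass_run h hik.le hkn hK, Finset.insert_idem]

lemma alt_sub_const {C : Finset ℕ} (hC : C.Nonempty) (G : Finset ℕ → ℂ) (c : ℂ) :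
    alt C (fun B => G B - c) = alt C G := by
  have h0 : alt C (fun _ => c) = 0 := by
    obtain ⟨a, ha⟩ := hC
    exact alt_zero ha fun _ _ => rfl
  have : alt C (fun B => G B - c) = alt C G - alt C (fun _ => c) := by
    unfold alt
    rw [← Finset.sum_sub_distrib]
    exact Finset.sum_congr rfl fun B _ => by ring
  rw [this, h0, sub_zero]

/-- bound of the alternating sums by the distance to a constant -/
lemma alt_norm_sub {S : Finset ℕ} (hS : S ⊆ range n) {G : Finset ℕ → ℂ} {c : ℂ} {M : ℝ}
    (h : ∀ B ⊆ insert n S, ‖G B - c‖ ≤ M) : ‖alt (insert n S) G‖ ≤ 2 * M * 2 ^ S.card := by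
  have hn : n ∉ S := fun h1 => by have := mem_range.1 (hS h1); omega
  rw [← alt_sub_const (insert_nonempty n S) G c]
  refine (alt_norm h).trans (le_of_eq ?_)
  rw [card_insert_of_notMem hn]; ring

/-! ### The alternating sums of the remainder -/

variable (F n s) in
/-- cuts `S`, all gaps `1 - E` -/
noncomputable def PT (S : Finset ℕ) : ℂ := alt (insert n S) (fun B => F (cf n S s) B)

variable (F n s) in
/-- natural left of the cap `j`, which is cut and has a broken gap on its left -/
noncomputable def PB (j : ℕ) (S : Finset ℕ) : ℂ :=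
  alt (insert n S) (fun B => F (cf n (insert j S) s) (insert j B))

lemma PT_dead (hp : Planar n F st dead vis s) {S : Finset ℕ} (hS : S ⊆ range n) {i : ℕ}
    (hi : i ∈ S) (hd : dead (st i)) : PT F n s S = 0 :=
  alt_zero (mem_insert_self _ _) fun B _ => hp.fin S hS B i hi hd

lemma PT_two (hp : Planar n F st dead vis s) {S : Finset ℕ} (hS : S ⊆ range n) {i j : ℕ}
    (hi : i ∈ S) (hj : j ∈ S) (h1 : st i = st j) (h2 : i ≠ j) : PT F n s S = 0 := by
  rcases lt_or_gt_of_ne h2 with h3 | h3
  · exact alt_zero (mem_insert_of_mem hj) fun B _ => hp.two S hS B i hi j hj h3 h1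
  · exact alt_zero (mem_insert_of_mem hi) fun B _ => hp.two S hS B j hj i hi h3 h1.symm

lemma PT_one (h : Rules n F) (hp : Planar n F st dead vis s) {S : Finset ℕ} (hS : S ⊆ range n)
    {i : ℕ} (hi : i ∈ S) (h1 : ¬ vis (st i)) (h2 : ∀ j ∈ S, st j = st i → j = i) :
    PT F n s S = PT F n s (S.erase i) := by
  have hin : i < n := mem_range.1 (hS hi)
  have hS' : S.erase i ⊆ range n := (erase_subset _ _).trans hS
  have hi' : i ∉ insert n (S.erase i) := by
    intro h3
    rcases mem_insert.1 h3 with h4 | h4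
    · omega
    · exact notMem_erase i S h4
  have e1 : insert n S = insert i (insert n (S.erase i)) := by
    rw [Finset.insert_comm, insert_erase hi]
  have e2 : (fun B' => F (cf n S s) B') = fun B' => F (cf n (S.erase i) s) B' := by
    funext B'; exact hp.one S hS B' i hi h1 h2
  unfold PT
  rw [e2, e1, alt_insert hi']
  have e3 := alt_dead (s := s) (D := ∅) h hS' hin (notMem_erase i S)
    (fun a ha => absurd ha (notMem_empty a)) ∅
  simp only [empty_union] at e3
  rw [e3, sub_zero]

section

variable {j : ℕ} {S : Finset ℕ}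

lemma sub_of_Ioo (hS : S ⊆ Ioo j n) : S ⊆ range n :=
  fun _ hi => mem_range.2 (mem_Ioo.1 (hS hi)).2

lemma insert_sub_of_Ioo (hj : j < n) (hS : S ⊆ Ioo j n) : insert j S ⊆ range n :=
  insert_subset (mem_range.2 hj) (sub_of_Ioo hS)

lemma notMem_of_Ioo (hS : S ⊆ Ioo j n) : j ∉ S := fun h1 => by
  have := (mem_Ioo.1 (hS h1)).1; omega

lemma PB_dead (hp : Planar n F st dead vis s) (hj : j < n) (hS : S ⊆ Ioo j n) {i : ℕ}
    (hi : i ∈ S) (hd : st i = st j ∨ dead (st i)) : PB F n s j S = 0 := by
  rcases hd with hd | hd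
  · refine alt_zero (mem_insert_of_mem hi) fun B _ => ?_
    rw [Finset.insert_comm]
    exact hp.two _ (insert_sub_of_Ioo hj hS) _ j (mem_insert_self _ _) i (mem_insert_of_mem hi)
      (mem_Ioo.1 (hS hi)).1 hd.symm
  · refine alt_zero (mem_insert_self n S) fun B _ => ?_
    rw [Finset.insert_comm]
    exact hp.fin _ (insert_sub_of_Ioo hj hS) _ i (mem_insert_of_mem hi) hd

lemma PB_two (hp : Planar n F st dead vis s) (hj : j < n) (hS : S ⊆ Ioo j n) {i i' : ℕ}
    (hi : i ∈ S) (hi' : i' ∈ S) (h1 : st i = st i') (h2 : i ≠ i') : PB F n s j S = 0 := by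
  rcases lt_or_gt_of_ne h2 with h3 | h3
  · refine alt_zero (mem_insert_of_mem hi') fun B _ => ?_
    rw [Finset.insert_comm]
    exact hp.two _ (insert_sub_of_Ioo hj hS) _ i (mem_insert_of_mem hi) i'
      (mem_insert_of_mem hi') h3 h1
  · refine alt_zero (mem_insert_of_mem hi) fun B _ => ?_
    rw [Finset.insert_comm]
    exact hp.two _ (insert_sub_of_Ioo hj hS) _ i' (mem_insert_of_mem hi') i
      (mem_insert_of_mem hi) h3 h1.symm

lemma PB_one (h : Rules n F) (hp : Planar n F st dead vis s) (hj : j < n) (hv : vis (st j))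
    (hS : S ⊆ Ioo j n) {i : ℕ} (hi : i ∈ S) (h1 : ¬ vis (st i))
    (h2 : ∀ j ∈ S, st j = st i → j = i) : PB F n s j S = PB F n s j (S.erase i) := by
  have hij : j < i := (mem_Ioo.1 (hS hi)).1
  have hin : i < n := (mem_Ioo.1 (hS hi)).2
  have hi' : i ∉ insert n (S.erase i) := by
    intro h3
    rcases mem_insert.1 h3 with h4 | h4
    · omega
    · exact notMem_erase i S h4
  have hstij : st j ≠ st i := fun h3 => h1 (h3 ▸ hv)
  have e1 : insert n S = insert i (insert n (S.erase i)) := by
    rw [Finset.insert_comm, insert_erase hi]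
  have e0 : (insert j S).erase i = insert j (S.erase i) := erase_insert_of_ne hij.ne
  have e2 : (fun B' => F (cf n (insert j S) s) (insert j B')) =
      fun B' => F (cf n (insert j (S.erase i)) s) (insert j B') := by
    funext B'
    rw [hp.one _ (insert_sub_of_Ioo hj hS) _ i (mem_insert_of_mem hi) h1 ?_, e0]
    intro a ha h3
    rcases mem_insert.1 ha with h4 | h4
    · exact absurd (h4 ▸ h3) hstij
    · exact h2 a h4 h3
  unfold PB
  rw [e2, e1, alt_insert hi']
  have e3 := alt_dead (s := s) (D := {j}) h ((erase_subset i S).trans (sub_of_Ioo hS)) hin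
    (notMem_erase i S) (fun a ha => by rw [mem_singleton.1 ha]; exact hij) {j}
  have e4 : (fun B => F (cf n ({j} ∪ S.erase i) s) (insert i ({j} ∪ B))) =
      fun B => F (cf n (insert j (S.erase i)) s) (insert j (insert i B)) := by
    funext B
    rw [singleton_union, singleton_union, Finset.insert_comm]
  rw [e4] at e3
  rw [e3, sub_zero]

lemma PB_zero (h : Rules n F) (hp : Planar n F st dead vis s) (hj : j < n) (hS : S ⊆ Ioo j n)
    (hv : ¬ vis (st j) ∨ dead (st j)) : PB F n s j S = 0 := by
  by_cases hd : dead (st j)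
  · refine alt_zero (mem_insert_self n S) fun B _ => ?_
    rw [Finset.insert_comm]
    exact hp.fin _ (insert_sub_of_Ioo hj hS) _ j (mem_insert_self _ _) hd
  · have hv' : ¬ vis (st j) := hv.resolve_right hd
    by_cases hex : ∃ i ∈ S, st i = st j
    · obtain ⟨i, hi, h1⟩ := hex
      exact PB_dead hp hj hS hi (Or.inl h1)
    · push Not at hex
      have e2 : (fun B' => F (cf n (insert j S) s) (insert j B')) =
          fun B' => F (cf n (∅ ∪ S) s) (insert j (∅ ∪ B')) := by
        funext B'
        rw [empty_union, empty_union, hp.one _ (insert_sub_of_Ioo hj hS) _ j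
          (mem_insert_self _ _) hv' ?_, erase_insert (notMem_of_Ioo hS)]
        intro a ha h3
        rcases mem_insert.1 ha with h4 | h4
        · exact h4
        · exact absurd h3 (hex a h4)
      unfold PB
      rw [e2, alt_dead h (sub_of_Ioo hS) hj (notMem_of_Ioo hS)
        (fun a ha => absurd ha (notMem_empty a))]

end

end Pool.Agent.Q1.M6a.T2
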