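import Mathlib
import Pool.Agent.Q1.M6a.T2Bound

set_option autoImplicit false
open Finset

/-! # Exact resummation of the double row

The closed strands give scalar factors, a visible strand is cut at most once: the double row is an explicit
combination of the values `F (cf n S s) B`, `S` a set of caps of different visible strands, with
coefficients which depend only on `v`, `w` and on the strands (not on `F`). -/

namespace Pool.Agent.Q1.M6a.T2

section

variable {ι : Type*} [DecidableEq ι] (v : ℕ → ℂ) (st : ℕ → ι)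

/-- closed classes factor out -/
lemma sum_closed (vis : ι → Prop) [DecidablePred vis] (J : Finset ℕ) (U : Finset ι) :
    (∀ σ ∈ U, ¬ vis σ) → ∀ Φ : Finset ℕ → ℂ,
    (∀ S ⊆ J, ∀ i ∈ S, ∀ j ∈ S, ¬ vis (st i) → st i = st j → i ≠ j → Φ S = 0) →
    (∀ S ⊆ J, ∀ i ∈ S, ¬ vis (st i) → (∀ j ∈ S, st j = st i → j = i) → Φ S = Φ (S.erase i)) →
    ∑ S ∈ (J.filter (fun i => vis (st i) ∨ st i ∈ U)).powerset, (∏ i ∈ S, v i) * Φ S =
      (∏ σ ∈ U, (1 + ∑ i ∈ cl st J σ, v i)) *
        ∑ S ∈ (J.filter (fun i => vis (st i))).powerset, (∏ i ∈ S, v i) * Φ S := by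
  induction U using Finset.induction_on with
  | empty =>
    intro _ Φ _ _
    simp
  | insert σ U hσ ih =>
    intro hU Φ h1 h2
    have hσv : ¬ vis σ := hU σ (mem_insert_self _ _)
    set J' := J.filter (fun i => vis (st i) ∨ st i ∈ U) with hJ'
    have hsplit : J.filter (fun i => vis (st i) ∨ st i ∈ insert σ U) = cl st J σ ∪ J' := by
      ext i
      simp only [hJ', cl, mem_filter, mem_insert, mem_union]
      tauto
    have hst : ∀ i ∈ cl st J σ, st i = σ := fun i hi => (mem_filter.1 hi).2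
    have hdis : Disjoint (cl st J σ) J' := by
      rw [disjoint_left]
      intro i hi hi'
      have h3 := hst i hi
      rcases (mem_filter.1 hi').2 with h4 | h4
      · exact hσv (h3 ▸ h4)
      · exact hσ (h3 ▸ h4)
    have hsub : cl st J σ ∪ J' ⊆ J := union_subset (filter_subset _ _) (filter_subset _ _)
    rw [hsplit, one_class v hdis (fun S hS i hi j hj hiC hjC hij =>
      h1 S (hS.trans hsub) i hi j hj (by rw [hst i hiC]; exact hσv)
        ((hst i hiC).trans (hst j hjC).symm) hij)]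
    have e3 : ∑ S ∈ J'.powerset, (∏ i ∈ S, v i) * (Φ S + ∑ i ∈ cl st J σ, v i * Φ (insert i S)) =
        (1 + ∑ i ∈ cl st J σ, v i) * ∑ S ∈ J'.powerset, (∏ i ∈ S, v i) * Φ S := by
      rw [Finset.mul_sum]
      refine Finset.sum_congr rfl fun S hS => ?_
      have hS' := mem_powerset.1 hS
      have : ∑ i ∈ cl st J σ, v i * Φ (insert i S) = (∑ i ∈ cl st J σ, v i) * Φ S := by
        rw [Finset.sum_mul]
        refine Finset.sum_congr rfl fun i hi => ?_
        have hiS : i ∉ S := fun h5 => (disjoint_left.1 hdis) hi (hS' h5)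
        rw [h2 (insert i S) ((insert_subset (mem_union_left _ hi)
          (hS'.trans subset_union_right)).trans hsub) i (mem_insert_self _ _)
          (by rw [hst i hi]; exact hσv), erase_insert hiS]
        intro j hj h7
        rcases mem_insert.1 hj with h8 | h8
        · exact h8
        · exfalso
          rw [hst i hi] at h7
          rcases (mem_filter.1 (hS' h8)).2 with h9 | h9
          · exact hσv (h7 ▸ h9)
          · exact hσ (h7 ▸ h9)
      rw [this]; ring
    rw [e3, ih (fun σ' h => hU σ' (mem_insert_of_mem h)) Φ h1 h2, Finset.prod_insert hσ]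
    ring

/-- sets of caps of different visible strands, without the dead strands -/
def good (dead vis : ι → Prop) [DecidablePred dead] [DecidablePred vis] (J : Finset ℕ) :
    Finset (Finset ℕ) :=
  (J.filter (fun i => vis (st i))).powerset.filter
    (fun S => (∀ i ∈ S, ¬ dead (st i)) ∧ ∀ i ∈ S, ∀ j ∈ S, st i = st j → i = j)

lemma mem_good {dead vis : ι → Prop} [DecidablePred dead] [DecidablePred vis] {J S : Finset ℕ} :
    S ∈ good st dead vis J ↔ (∀ i ∈ S, i ∈ J ∧ vis (st i)) ∧ (∀ i ∈ S, ¬ dead (st i)) ∧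
      ∀ i ∈ S, ∀ j ∈ S, st i = st j → i = j := by
  unfold good
  rw [mem_filter, mem_powerset]
  constructor
  · rintro ⟨h1, h2⟩
    exact ⟨fun i hi => mem_filter.1 (h1 hi), h2⟩
  · rintro ⟨h1, h2⟩
    exact ⟨fun i hi => mem_filter.2 (h1 i hi), h2⟩

/-- **Exact resummation.** -/
theorem sum_exact (dead vis : ι → Prop) [DecidablePred dead] [DecidablePred vis]
    (J : Finset ℕ) (Φ : Finset ℕ → ℂ)
    (h0 : ∀ S ⊆ J, ∀ i ∈ S, dead (st i) → Φ S = 0)
    (h1 : ∀ S ⊆ J, ∀ i ∈ S, ∀ j ∈ S, st i = st j → i ≠ j → Φ S = 0)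
    (h2 : ∀ S ⊆ J, ∀ i ∈ S, ¬ vis (st i) → (∀ j ∈ S, st j = st i → j = i) →
      Φ S = Φ (S.erase i)) :
    ∑ S ∈ J.powerset, (∏ i ∈ S, v i) * Φ S =
      (∏ σ ∈ (J.image st).filter (fun σ => ¬ vis σ), (1 + ∑ i ∈ cl st J σ, v i)) *
        ∑ S ∈ good st dead vis J, (∏ i ∈ S, v i) * Φ S := by
  have e0 : J.filter (fun i => vis (st i) ∨ st i ∈ (J.image st).filter (fun σ => ¬ vis σ)) = J := by
    ext i
    simp only [mem_filter, and_iff_left_iff_imp]
    intro hi
    by_cases hv : vis (st i)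
    · exact Or.inl hv
    · exact Or.inr ⟨mem_image_of_mem st hi, hv⟩
  have e1 := sum_closed v st vis J ((J.image st).filter (fun σ => ¬ vis σ))
    (fun σ hσ => (mem_filter.1 hσ).2) Φ (fun S hS i hi j hj _ h3 h4 => h1 S hS i hi j hj h3 h4) h2
  rw [e0] at e1
  rw [e1]
  congr 1
  unfold good
  rw [Finset.sum_filter]
  refine Finset.sum_congr rfl fun S hS => ?_
  have hS' : S ⊆ J := (mem_powerset.1 hS).trans (filter_subset _ _)
  split_ifs with h
  · rfl
  · rw [not_and_or] at h
    rcases h with h | h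
    · push Not at h
      obtain ⟨i, hi, hd⟩ := h
      rw [h0 S hS' i hi hd, mul_zero]
    · push Not at h
      obtain ⟨i, hi, j, hj, h3, h4⟩ := h
      rw [h1 S hS' i hi j hj h3 h4, mul_zero]

/-- total size of the coefficients -/
lemma sum_good (dead vis : ι → Prop) [DecidablePred dead] [DecidablePred vis] (J : Finset ℕ) :
    ∑ S ∈ good st dead vis J, (∏ i ∈ S, ‖v i‖) * 2 ^ S.card ≤
      ∏ σ ∈ (J.image st).filter (fun σ => vis σ ∧ ¬ dead σ), (1 + 2 * ∑ i ∈ cl st J σ, ‖v i‖) := by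
  classical
  -- apply `sum_bound` to the indicator function of the good sets
  have hx : ∀ i, ((‖v i‖ : ℝ) : ℂ) = ((‖v i‖ : ℝ) : ℂ) := fun _ => rfl
  set Φ : Finset ℕ → ℂ := fun S => if S ∈ good st dead vis J then ((2 : ℂ) ^ S.card) else 0 with hΦ
  set dead' : ι → Prop := fun σ => ¬ (vis σ ∧ ¬ dead σ) with hd'
  have hfil : J.filter (fun i => st i ∈ J.image st) = J := by
    ext i; simp only [mem_filter, and_iff_left_iff_imp]
    intro hi; exact mem_image_of_mem st hi
  have key := sum_bound (fun i => ((‖v i‖ : ℝ) : ℂ)) st dead' vis J (J.image st) Φ 1 ?_ ?_ ?_ ?_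
  · rw [hfil, one_mul] at key
    have e1 : ∑ S ∈ J.powerset, (∏ i ∈ S, ((‖v i‖ : ℝ) : ℂ)) * Φ S =
        ((∑ S ∈ good st dead vis J, (∏ i ∈ S, ‖v i‖) * 2 ^ S.card : ℝ) : ℂ) := by
      have hsub : good st dead vis J ⊆ J.powerset := by
        intro S hS
        rw [mem_powerset]
        exact fun i hi => ((mem_good st).1 hS).1 i hi |>.1
      rw [← Finset.sum_subset hsub]
      · push_cast
        refine Finset.sum_congr rfl fun S hS => ?_
        rw [hΦ]; simp only [if_pos hS]
      · intro S _ hS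
        rw [hΦ]; simp only [if_neg hS, mul_zero]
    rw [e1, Complex.norm_real, Real.norm_eq_abs] at key
    refine (le_abs_self _).trans (key.trans (le_of_eq ?_))
    rw [Finset.prod_filter]
    refine Finset.prod_congr rfl fun σ _ => ?_
    unfold fac
    by_cases h : vis σ ∧ ¬ dead σ
    · have h' : ¬ dead' σ := fun h2 => h2 h
      rw [if_neg h', if_pos h.1, if_pos h]
      simp
    · have h' : dead' σ := h
      rw [if_pos h', if_neg h]
  · intro S _ i hi hd
    rw [hΦ]; simp only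
    rw [if_neg]
    intro hS
    have h3 := (mem_good st).1 hS
    exact hd ⟨(h3.1 i hi).2, h3.2.1 i hi⟩
  · intro S _ i hi j hj h1 h2
    rw [hΦ]; simp only
    rw [if_neg]
    intro hS
    exact h2 (((mem_good st).1 hS).2.2 i hi j hj h1)
  · intro S _ i _ h1 h2 _
    exact absurd (fun h3 => h2 h3.1) h1
  · intro S _
    rw [hΦ]; simp only
    split_ifs
    · simp
    · simp

end

variable {v w : ℕ → ℂ} {F : (ℕ → St) → Finset ℕ → ℂ} {ι : Type*} [DecidableEq ι] {st : ℕ → ι}
  {dead vis : ι → Prop} [DecidablePred dead] [DecidablePred vis] {n : ℕ} {s : ℕ → St}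

variable (v st vis) in
/-- scalar factor of the kept caps and of the closed strands -/
noncomputable def sc (J : Finset ℕ) : ℂ :=
  (∏ i ∈ J, (1 - v i)) * ∏ σ ∈ (J.image st).filter (fun σ => ¬ vis σ), (1 + ∑ i ∈ cl st J σ, v i)

/-- **The double row over an open run, exactly.** The coefficients depend only on `v`, `w` and the
strands. -/
theorem X_exact (h : Rules n F) (hp : Planar n F st dead vis s) :
    X v w F n s ∅ = F (cf n ∅ s) {n} +
      ∑ j ∈ (range n).filter (fun j => vis (st j) ∧ ¬ dead (st j)),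
        (v j * (1 - v j) + w j) * (sc v st vis (Ioo j n) *
          ∑ S ∈ good st (fun σ => σ = st j ∨ dead σ) vis (Ioo j n), (∏ i ∈ S, v i) * PB F n s j S) +
      sc v st vis (range n) * ∑ S ∈ good st dead vis (range n), (∏ i ∈ S, v i) * PT F n s S := by
  rw [X_eq h n le_rfl s ∅, insert_empty_eq]
  congr 1
  · congr 1
    rw [Finset.sum_filter]
    refine Finset.sum_congr rfl fun j hj => ?_
    have hj' := mem_range.1 hj
    have eQ : Q v F (Ioo j n) {j} {j} n s ∅ =
        (∏ i ∈ Ioo j n, (1 - v i)) * ∑ S ∈ (Ioo j n).powerset, (∏ i ∈ S, v i) * PB F n s j S := by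
      unfold Q PB
      simp only [empty_union, singleton_union]
    split_ifs with hv
    · rw [eQ, sum_exact v st (fun σ => σ = st j ∨ dead σ) vis (Ioo j n) (PB F n s j)
        (fun S hS i hi hd => PB_dead hp hj' hS hi hd)
        (fun S hS i hi i' hi' h1 h2 => PB_two hp hj' hS hi hi' h1 h2)
        (fun S hS i hi h1 h2 => PB_one h hp hj' hv.1 hS hi h1 h2)]
      unfold sc; ring
    · rw [eQ, Finset.sum_eq_zero, mul_zero, mul_zero]
      intro S hS
      rw [PB_zero h hp hj' (mem_powerset.1 hS) ?_, mul_zero]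
      rw [not_and_or, not_not] at hv
      exact hv
  · have eQ : Q v F (range n) ∅ ∅ n s ∅ =
        (∏ i ∈ range n, (1 - v i)) * ∑ S ∈ (range n).powerset, (∏ i ∈ S, v i) * PT F n s S := by
      unfold Q PT
      simp only [empty_union]
    rw [eQ, sum_exact v st dead vis (range n) (PT F n s)
      (fun S hS i hi hd => PT_dead hp hS hi hd)
      (fun S hS i hi i' hi' h1 h2 => PT_two hp hS hi hi' h1 h2)
      (fun S hS i hi h1 h2 => PT_one h hp hS hi h1 h2)]
    unfold sc; ring

/-- factor of the visible strands -/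
noncomputable def vf (v : ℕ → ℂ) (st : ℕ → ι) (dead vis : ι → Prop) [DecidablePred dead]
    [DecidablePred vis] (J : Finset ℕ) : ℝ :=
  ∏ σ ∈ (J.image st).filter (fun σ => vis σ ∧ ¬ dead σ), (1 + 2 * ∑ i ∈ cl st J σ, ‖v i‖)

lemma vf_nonneg (J : Finset ℕ) : 0 ≤ vf v st dead vis J := by
  refine Finset.prod_nonneg fun σ _ => ?_
  have : 0 ≤ ∑ i ∈ cl st J σ, ‖v i‖ := Finset.sum_nonneg fun _ _ => norm_nonneg _
  linarith

lemma good_sum_norm {J : Finset ℕ} {Φ : Finset ℕ → ℂ} {M : ℝ}
    (h : ∀ S ∈ good st dead vis J, ‖Φ S‖ ≤ M * 2 ^ S.card) (hM : 0 ≤ M) :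
    ‖∑ S ∈ good st dead vis J, (∏ i ∈ S, v i) * Φ S‖ ≤ M * vf v st dead vis J := by
  refine (norm_sum_le _ _).trans ?_
  refine le_trans ?_ (mul_le_mul_of_nonneg_left (sum_good v st dead vis J) hM)
  rw [Finset.mul_sum]
  refine Finset.sum_le_sum fun S hS => ?_
  rw [norm_mul, norm_prod]
  have hp : 0 ≤ ∏ i ∈ S, ‖v i‖ := Finset.prod_nonneg fun _ _ => norm_nonneg _
  calc (∏ i ∈ S, ‖v i‖) * ‖Φ S‖ ≤ (∏ i ∈ S, ‖v i‖) * (M * 2 ^ S.card) :=
        mul_le_mul_of_nonneg_left (h S hS) hp
    _ = _ := by ring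

lemma good_sub {J S : Finset ℕ} (h : S ∈ good st dead vis J) : S ⊆ J :=
  fun i hi => (((mem_good st).1 h).1 i hi).1

/-- **Main bound**: distance of the double row from the natural caps. -/
theorem X_bound (h : Rules n F) (hp : Planar n F st dead vis s) {M : ℝ} {Mj : ℕ → ℝ}
    (hM0 : 0 ≤ M) (hMj0 : ∀ j < n, 0 ≤ Mj j)
    (hM : ∀ S ∈ good st dead vis (range n), ∀ B ⊆ insert n S,
      ‖F (cf n S s) B - F (cf n ∅ s) {n}‖ ≤ M)
    (hMj : ∀ j < n, vis (st j) → ¬ dead (st j) →
      ∀ S ∈ good st (fun σ => σ = st j ∨ dead σ) vis (Ioo j n), ∀ B ⊆ insert n S,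
      ‖F (cf n (insert j S) s) (insert j B) - F (cf n ∅ s) {n}‖ ≤ Mj j) :
    ‖X v w F n s ∅ - F (cf n ∅ s) {n}‖ ≤
      ∑ j ∈ (range n).filter (fun j => vis (st j) ∧ ¬ dead (st j)), ‖v j * (1 - v j) + w j‖ *
        (‖sc v st vis (Ioo j n)‖ * (2 * Mj j *
          vf v st (fun σ => σ = st j ∨ dead σ) vis (Ioo j n))) +
      ‖sc v st vis (range n)‖ * (2 * M * vf v st dead vis (range n)) := by
  rw [X_exact h hp, add_sub_assoc]
  have e3 : ∀ a b c : ℂ, a + b + c - a = b + c := fun a b c => by ring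
  rw [← add_sub_assoc, e3]
  refine (norm_add_le _ _).trans (add_le_add ?_ ?_)
  · refine (norm_sum_le _ _).trans (Finset.sum_le_sum fun j hj => ?_)
    rw [mem_filter, mem_range] at hj
    rw [norm_mul, norm_mul]
    refine mul_le_mul_of_nonneg_left (mul_le_mul_of_nonneg_left ?_ (norm_nonneg _)) (norm_nonneg _)
    refine good_sum_norm (fun S hS => ?_) (by have := hMj0 j hj.1; linarith)
    exact alt_norm_sub (sub_of_Ioo (good_sub hS)) (hMj j hj.1 hj.2.1 hj.2.2 S hS)
  · rw [norm_mul]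
    refine mul_le_mul_of_nonneg_left ?_ (norm_nonneg _)
    refine good_sum_norm (fun S hS => ?_) (by linarith)
    exact alt_norm_sub (good_sub hS) (hM S hS)

end Pool.Agent.Q1.M6a.T2
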