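import Mathlib
import Pool.Agent.Q1.M6a.T2Exact

set_option autoImplicit false
open Finset

/-! # The wiring rules of the double row, from a map of ports

The strands are directed: the lower row runs to the right, the upper row to the left, a cap `i` is
entered at `t i` and left at `t' i`. `la i`, `lb i` are the ports of the lower row left and right of the
gap `i`, `ub i`, `ua i` those of the upper row. `tm x` are the other ports of interest (`fin`: final
ones). The outside of the strip is any injective map `o`. -/

namespace Pool.Agent.Q1.M6a.T2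

/-! ### Rerouting -/

section Route

variable {P : Type*}

/-- `q` is reached from `p` -/
def Reach (g : P → P) (p q : P) : Prop := ∃ k : ℕ, g^[k] p = q

/-- `q` is reached from `p` by at least one step, in between one is in `D` -/
def Ret (g : P → P) (D : Set P) (p q : P) : Prop :=
  ∃ k : ℕ, g^[k + 1] p = q ∧ ∀ m, 0 < m → m ≤ k → g^[m] p ∈ D

lemma Ret.one {g : P → P} {D : Set P} {p q : P} (h : g p = q) : Ret g D p q :=
  ⟨0, h, fun m h1 h2 => by omega⟩

lemma Ret.cons {g : P → P} {D : Set P} {p q : P} (h1 : g p ∈ D) (h2 : Ret g D (g p) q) :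
    Ret g D p q := by
  obtain ⟨k, hk, hm⟩ := h2
  refine ⟨k + 1, ?_, ?_⟩
  · rw [Function.iterate_succ_apply]; exact hk
  · intro m h3 h4
    obtain ⟨m', rfl⟩ : ∃ m', m = m' + 1 := ⟨m - 1, by omega⟩
    rw [Function.iterate_succ_apply]
    rcases Nat.eq_zero_or_pos m' with h5 | h5
    · subst h5; exact h1
    · exact hm m' h5 (by omega)

/-- the induced map outside `D` has the same connections -/
lemma reach_induced {g r : P → P} {D V : Set P}
    (h : ∀ p ∈ V, p ∉ D → r p ∈ V ∧ r p ∉ D ∧ Ret g D p (r p)) {p q : P} (hp : p ∈ V)
    (hpD : p ∉ D) (hqD : q ∉ D) : Reach g p q ↔ Reach r p q := by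
  have hr : ∀ k, r^[k] p ∈ V ∧ r^[k] p ∉ D ∧ Reach g p (r^[k] p) := by
    intro k
    induction k with
    | zero => exact ⟨hp, hpD, 0, rfl⟩
    | succ k ih =>
      obtain ⟨h1, h2, j, hj⟩ := ih
      obtain ⟨h3, h4, l, hl, -⟩ := h _ h1 h2
      rw [Function.iterate_succ_apply']
      refine ⟨h3, h4, l + 1 + j, ?_⟩
      rw [Function.iterate_add_apply, hj, hl]
  constructor
  · rintro ⟨k, hk⟩
    -- strong induction on the number of steps
    have key : ∀ k, ∀ p' ∈ V, p' ∉ D → g^[k] p' = q → Reach r p' q := by
      intro k
      induction k using Nat.strong_induction_on with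
      | _ k ih =>
        intro p' hp' hpD' hk'
        rcases Nat.eq_zero_or_pos k with h0 | h0
        · subst h0; exact ⟨0, hk'⟩
        · obtain ⟨h3, h4, l, hl, hm⟩ := h p' hp' hpD'
          have hlk : l + 1 ≤ k := by
            by_contra hcon
            have := hm k h0 (by omega)
            rw [hk'] at this
            exact hqD this
          obtain ⟨m, hm'⟩ := ih (k - (l + 1)) (by omega) (r p') h3 h4 (by
            rw [← hl, ← Function.iterate_add_apply, Nat.sub_add_cancel hlk]; exact hk')
          exact ⟨m + 1, by rw [Function.iterate_succ_apply]; exact hm'⟩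
    exact key k p hp hpD hk
  · rintro ⟨k, hk⟩
    rw [← hk]; exact (hr k).2.2

/-- **Rerouting**: two maps with the same induced map outside `D` -/
lemma reroute {g g' r : P → P} {D V : Set P}
    (h : ∀ p ∈ V, p ∉ D → r p ∈ V ∧ r p ∉ D ∧ Ret g D p (r p) ∧ Ret g' D p (r p)) {p q : P}
    (hp : p ∈ V) (hpD : p ∉ D) (hqD : q ∉ D) : Reach g p q ↔ Reach g' p q := by
  rw [reach_induced (r := r) (V := V) (fun p h1 h2 => ⟨(h p h1 h2).1, (h p h1 h2).2.1,
    (h p h1 h2).2.2.1⟩) hp hpD hqD, reach_induced (g := g') (r := r) (V := V)
    (fun p h1 h2 => ⟨(h p h1 h2).1, (h p h1 h2).2.1, (h p h1 h2).2.2.2⟩) hp hpD hqD]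

/-- **Trapped**: a finite region with one exit -/
lemma trapped {g : P → P} {D : Set P} (hD : D.Finite) {x p : P} (hp : p ∉ D)
    (hgp : g p ∈ D) (hmap : ∀ q ∈ D, g q ∈ D ∨ g q = x)
    (hinj : ∀ q q', (q ∈ D ∨ q = p) → (q' ∈ D ∨ q' = p) → g q = g q' → q = q') :
    Ret g D p x := by
  -- the iterates cannot stay in `D` for ever
  have hex : ∃ k, 0 < k ∧ g^[k] p ∉ D := by
    by_contra hcon
    push Not at hcon
    have hin : ∀ k, g^[k] p ∈ D ∨ g^[k] p = p := by
      intro k
      rcases Nat.eq_zero_or_pos k with h0 | h0
      · right; subst h0; rfl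
      · exact Or.inl (hcon k h0)
    have hback : ∀ a b, g^[a] p = g^[a + b] p → p = g^[b] p := by
      intro a
      induction a with
      | zero => intro b hab; simpa using hab
      | succ a ih =>
        intro b hab
        apply ih
        rw [show a + 1 + b = (a + b) + 1 by ring, Function.iterate_succ_apply',
          Function.iterate_succ_apply'] at hab
        exact hinj _ _ (hin a) (hin (a + b)) hab
    have hfin : (Set.range fun k : ℕ => g^[k + 1] p).Finite :=
      hD.subset (by rintro _ ⟨k, rfl⟩; exact hcon (k + 1) (Nat.succ_pos k))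
    have hni : ¬ Function.Injective fun k : ℕ => g^[k + 1] p :=
      fun hinj' => Set.infinite_range_of_injective hinj' hfin
    unfold Function.Injective at hni
    push Not at hni
    obtain ⟨a, b, hab, hne⟩ := hni
    rcases lt_or_gt_of_ne hne with h1 | h1
    · have h2 := hback (a + 1) (b - a) (by
        rw [show a + 1 + (b - a) = b + 1 by omega]; exact hab)
      exact hp (h2 ▸ hcon (b - a) (by omega))
    · have h2 := hback (b + 1) (a - b) (by
        rw [show b + 1 + (a - b) = a + 1 by omega]; exact hab.symm)
      exact hp (h2 ▸ hcon (a - b) (by omega))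
  classical
  set k := Nat.find hex with hk
  have hk1 : 0 < k := (Nat.find_spec hex).1
  have hk2 : g^[k] p ∉ D := (Nat.find_spec hex).2
  have hk3 : ∀ m, 0 < m → m < k → g^[m] p ∈ D := by
    intro m h1 h2
    by_contra h3
    exact Nat.find_min hex h2 ⟨h1, h3⟩
  have hk4 : k ≠ 1 := by
    intro h1
    rw [h1] at hk2
    exact hk2 hgp
  refine ⟨k - 1, ?_, fun m h1 h2 => hk3 m h1 (by omega)⟩
  rw [Nat.sub_add_cancel hk1]
  have h5 : g^[k] p = g (g^[k - 1] p) := by
    rw [← Function.iterate_succ_apply' g, Nat.succ_eq_add_one, Nat.sub_add_cancel hk1]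
  rcases hmap _ (hk3 (k - 1) (by omega) (by omega)) with h6 | h6
  · rw [← h5] at h6; exact absurd h6 hk2
  · rw [h5]; exact h6

end Route

/-! ### The ports -/

/-- ports of the strip -/
inductive Port (Tm : Type*)
  | la (i : ℕ)
  | lb (i : ℕ)
  | ub (i : ℕ)
  | ua (i : ℕ)
  | t (i : ℕ)
  | t' (i : ℕ)
  | tm (x : Tm)

open Port

variable {Tm : Type*}

/-- the step map -/
def stepP (n : ℕ) (o : Port Tm → Port Tm) (s : ℕ → St) (B : Finset ℕ) : Port Tm → Port Tm
  | la i => if i ∈ B then ub i else lb i
  | ua i => if i ∈ B then lb i else ub i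
  | lb i => if i < n then
      (match s i with
        | .K => la (i + 1)
        | .UC => la (i + 1)
        | .RU => t' i
        | .LU => ua i
        | .BU => ua i) else o (lb i)
  | ub 0 => o (ub 0)
  | ub (i + 1) =>
      (match s i with
        | .K => ua i
        | .UC => t' i
        | .RU => la (i + 1)
        | .LU => t' i
        | .BU => la (i + 1))
  | t i =>
      (match s i with
        | .K => t' i
        | .UC => ua i
        | .RU => ua i
        | .LU => la (i + 1)
        | .BU => t' i)
  | t' i => o (t' i)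
  | tm x => o (tm x)

/-- ports on which the outside map is applied -/
def Src (n : ℕ) (fin : Set Tm) : Port Tm → Prop
  | la _ => False
  | ua _ => False
  | lb i => i = n
  | ub i => i = 0
  | t _ => False
  | t' i => i < n
  | tm x => x ∉ fin

/-- values of the outside map -/
def Tgt (n : ℕ) (fin : Set Tm) : Port Tm → Prop
  | la i => i = 0
  | ua i => i = n
  | lb _ => False
  | ub _ => False
  | t i => i < n
  | t' _ => False
  | tm x => x ∈ fin

/-- ports in front of the strip -/
def Inn (n : ℕ) : Port Tm → Prop
  | la i => i ≤ n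
  | ua i => i ≤ n
  | lb i => i < n
  | ub i => 0 < i ∧ i ≤ n
  | t i => i < n
  | t' _ => False
  | tm _ => False

/-- The outside of the strip. -/
structure Outer (n : ℕ) (fin : Set Tm) (o : Port Tm → Port Tm) : Prop where
  maps : ∀ p, Src n fin p → Tgt n fin (o p)
  inj : ∀ p q, Src n fin p → Src n fin q → o p = o q → p = q
  final : ∀ y ∈ fin, o (tm y) = tm y

/-- all ports which can occur -/
def Val (n : ℕ) (fin : Set Tm) (p : Port Tm) : Prop := Src n fin p ∨ Inn n p ∨ ∃ y ∈ fin, p = tm y

/-- predecessor inside the strip -/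
def pre (s : ℕ → St) (B : Finset ℕ) : Port Tm → Port Tm
  | lb i => if i ∈ B then ua i else la i
  | ub i => if i ∈ B then la i else ua i
  | la 0 => la 0
  | la (i + 1) =>
      (match s i with
        | .K => lb i
        | .UC => lb i
        | .RU => ub (i + 1)
        | .LU => t i
        | .BU => ub (i + 1))
  | ua i =>
      (match s i with
        | .K => ub (i + 1)
        | .UC => t i
        | .RU => t i
        | .LU => lb i
        | .BU => lb i)
  | t' i =>
      (match s i with
        | .K => t i
        | .UC => ub (i + 1)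
        | .RU => lb i
        | .LU => ub (i + 1)
        | .BU => t i)
  | t i => t i
  | tm x => tm x

variable {n : ℕ} {fin : Set Tm} {o : Port Tm → Port Tm} {s : ℕ → St} {B : Finset ℕ}

lemma pre_stepP {p : Port Tm} (hp : Inn n p) : pre s B (stepP n o s B p) = p := by
  cases p with
  | la i => simp only [stepP]; split_ifs with h <;> simp [pre, h]
  | ua i => simp only [stepP]; split_ifs with h <;> simp [pre, h]
  | lb i =>
    have h : i < n := hp
    simp only [stepP, if_pos h]
    cases hs : s i <;> simp [pre, hs]
  | ub i =>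
    obtain ⟨i', rfl⟩ : ∃ i', i = i' + 1 := ⟨i - 1, by have := hp.1; omega⟩
    simp only [stepP]
    cases hs : s i' <;> simp [pre, hs]
  | t i =>
    simp only [stepP]
    cases hs : s i <;> simp [pre, hs]
  | t' i => exact hp.elim
  | tm x => exact hp.elim

/-- ports behind the strip -/
def Outp (n : ℕ) : Port Tm → Prop
  | la i => 0 < i ∧ i ≤ n
  | ua i => i < n
  | lb i => i ≤ n
  | ub i => i ≤ n
  | t _ => False
  | t' i => i < n
  | tm _ => False

lemma stepP_Outp {p : Port Tm} (hp : Inn n p) : Outp n (stepP n o s B p) := by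
  cases p with
  | la i => simp only [stepP]; split_ifs with h <;> exact hp
  | ua i => simp only [stepP]; split_ifs with h <;> exact hp
  | lb i =>
    have h : i < n := hp
    simp only [stepP, if_pos h]
    cases s i <;> simp only [Outp] <;> omega
  | ub i =>
    obtain ⟨i', rfl⟩ : ∃ i', i = i' + 1 := ⟨i - 1, by have := hp.1; omega⟩
    have h := hp.2
    simp only [stepP]
    cases s i' <;> simp only [Outp] <;> omega
  | t i =>
    have h : i < n := hp
    simp only [stepP]
    cases s i <;> simp only [Outp] <;> omega
  | t' i => exact hp.elim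
  | tm x => exact hp.elim

lemma Outp_not_Tgt {p : Port Tm} (h1 : Outp n p) (h2 : Tgt n fin p) : False := by
  cases p <;> simp only [Outp, Tgt] at h1 h2 <;> omega

lemma stepP_Src {p : Port Tm} (hp : Src n fin p) : stepP n o s B p = o p := by
  cases p with
  | la i => exact hp.elim
  | ua i => exact hp.elim
  | lb i =>
    have h : i = n := hp
    simp [stepP, h]
  | ub i =>
    have h : i = 0 := hp
    subst h; rfl
  | t i => exact hp.elim
  | t' i => rfl
  | tm x => rfl

lemma Val_of_Tgt {p : Port Tm} (h : Tgt n fin p) : Val n fin p := by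
  cases p with
  | la i => right; left; show i ≤ n; have h' : i = 0 := h; omega
  | ua i => right; left; show i ≤ n; have h' : i = n := h; omega
  | lb i => exact h.elim
  | ub i => exact h.elim
  | t i => right; left; exact h
  | t' i => exact h.elim
  | tm x => right; right; exact ⟨x, h, rfl⟩

lemma Val_of_Outp {p : Port Tm} (h : Outp n p) : Val n fin p := by
  cases p with
  | la i => right; left; exact h.2
  | ua i => right; left; exact le_of_lt h
  | lb i =>
    rcases Nat.lt_or_ge i n with h1 | h1
    · right; left; exact h1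
    · left; show i = n; have h' : i ≤ n := h; omega
  | ub i =>
    rcases Nat.eq_zero_or_pos i with h1 | h1
    · left; exact h1
    · right; left; exact ⟨h1, h⟩
  | t i => exact h.elim
  | t' i => left; exact h
  | tm x => exact h.elim

lemma Val_step (ho : Outer n fin o) {p : Port Tm} (h : Val n fin p) :
    Val n fin (stepP n o s B p) := by
  rcases h with h | h | ⟨y, hy, rfl⟩
  · rw [stepP_Src h]; exact Val_of_Tgt (ho.maps p h)
  · exact Val_of_Outp (stepP_Outp h)
  · right; right
    refine ⟨y, hy, ?_⟩
    show o (tm y) = tm y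
    exact ho.final y hy

/-- the step map is injective, except at the final ports -/
lemma stepP_inj (ho : Outer n fin o) {p q : Port Tm} (hp : Src n fin p ∨ Inn n p)
    (hq : Src n fin q ∨ Inn n q) (h : stepP n o s B p = stepP n o s B q) : p = q := by
  rcases hp with hp | hp <;> rcases hq with hq | hq
  · rw [stepP_Src hp, stepP_Src hq] at h
    exact ho.inj p q hp hq h
  · exfalso
    rw [stepP_Src hp] at h
    have h1 := ho.maps p hp
    rw [h] at h1
    exact Outp_not_Tgt (stepP_Outp hq) h1
  · exfalso
    rw [stepP_Src hq] at h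
    have h1 := ho.maps q hq
    rw [← h] at h1
    exact Outp_not_Tgt (stepP_Outp hp) h1
  · rw [← pre_stepP (o := o) (s := s) (B := B) hp, h, pre_stepP hq]

/-- the same connections between the terminals -/
def SameW (fin : Set Tm) (g g' : Port Tm → Port Tm) : Prop :=
  ∀ x ∉ fin, ∀ y ∈ fin, Reach g (tm x) (tm y) ↔ Reach g' (tm x) (tm y)

lemma SameW.symm {g g' : Port Tm → Port Tm} (h : SameW fin g g') : SameW fin g' g :=
  fun x hx y hy => (h x hx y hy).symm

/-- the local criterion -/
lemma same_of_local {g g' : Port Tm → Port Tm} {D : Set (Port Tm)}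
    (hD : ∀ x, tm x ∉ D)
    (h : ∀ p, Val n fin p → p ∉ D → ∃ q, Val n fin q ∧ q ∉ D ∧ Ret g D p q ∧ Ret g' D p q) :
    SameW fin g g' := by
  classical
  intro x hx y _
  have hx' : Val n fin (tm x) := Or.inl hx
  set r : Port Tm → Port Tm := fun p =>
    if hp : Val n fin p ∧ p ∉ D then (h p hp.1 hp.2).choose else p with hr
  refine reroute (r := r) (V := {p | Val n fin p}) ?_ hx' (hD x) (hD y)
  intro p hp hpD
  have e : r p = (h p hp hpD).choose := by
    simp only [hr]
    rw [dif_pos ⟨hp, hpD⟩]
  rw [e]
  exact (h p hp hpD).choose_spec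

lemma pre_of_step (ho : Outer n fin o) {p q : Port Tm} (hp : Val n fin p) (hq : Outp n q)
    (h : stepP n o s B p = q) : p = pre s B q := by
  rcases hp with hp | hp | ⟨y, hy, rfl⟩
  · exfalso
    rw [stepP_Src hp] at h
    have h1 := ho.maps p hp
    rw [h] at h1
    exact Outp_not_Tgt hq h1
  · rw [← h, pre_stepP hp]
  · exfalso
    have h1 : stepP n o s B (tm y) = tm y := ho.final y hy
    rw [h1] at h
    rw [← h] at hq
    exact hq

lemma stepP_insert {a : ℕ} {p : Port Tm} (h1 : p ≠ la a) (h2 : p ≠ ua a) :
    stepP n o s (insert a B) p = stepP n o s B p := by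
  cases p with
  | la i =>
    have : i ≠ a := fun h => h1 (by rw [h])
    simp [stepP, this]
  | ua i =>
    have : i ≠ a := fun h => h2 (by rw [h])
    simp [stepP, this]
  | lb i => rfl
  | ub i => cases i <;> rfl
  | t i => rfl
  | t' i => rfl
  | tm x => rfl

lemma stepP_update {a : ℕ} {x : St} {p : Port Tm} (h1 : p ≠ lb a) (h2 : p ≠ ub (a + 1))
    (h3 : p ≠ t a) : stepP n o (Function.update s a x) B p = stepP n o s B p := by
  cases p with
  | la i => rfl
  | ua i => rfl
  | lb i =>
    have : i ≠ a := fun h => h1 (by rw [h])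
    simp [stepP, this]
  | ub i =>
    cases i with
    | zero => rfl
    | succ i =>
      have : i ≠ a := fun h => h2 (by rw [h])
      simp [stepP, this]
  | t i =>
    have : i ≠ a := fun h => h3 (by rw [h])
    simp [stepP, this]
  | t' i => rfl
  | tm x => rfl

lemma rule_rU (ho : Outer n fin o) {i : ℕ} (hi : i < n) (h : s i = .RU ∨ s i = .BU) :
    SameW fin (stepP n o s (insert (i + 1) B)) (stepP n o s B) := by
  by_cases hB : i + 1 ∈ B
  · rw [insert_eq_of_mem hB]; intro x _ y _; exact Iff.rfl
  set D : Set (Port Tm) := {la (i + 1), ub (i + 1)} with hD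
  have hub : ∀ B', stepP n o s B' (ub (i + 1)) = la (i + 1) := by
    intro B'; rcases h with h | h <;> simp [stepP, h]
  apply SameW.symm
  apply same_of_local (n := n) (D := D) (by intro x; simp [hD])
  intro p hp hpD
  by_cases h1 : p = ua (i + 1)
  · refine ⟨lb (i + 1), Val_of_Outp (show i + 1 ≤ n from hi), by simp [hD], ?_, ?_⟩
    · subst h1
      refine Ret.cons (by simp [stepP, hB, hD]) ?_
      rw [show stepP n o s B (ua (i + 1)) = ub (i + 1) by simp [stepP, hB]]
      refine Ret.cons (by rw [hub]; simp [hD]) ?_
      rw [hub]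
      exact Ret.one (by simp [stepP, hB])
    · subst h1; exact Ret.one (by simp [stepP])
  · refine ⟨stepP n o s B p, Val_step ho hp, ?_, Ret.one rfl, Ret.one ?_⟩
    · intro h2
      rcases h2 with h2 | h2
      · have := pre_of_step ho hp (q := la (i + 1)) ⟨Nat.succ_pos i, hi⟩ h2
        apply hpD
        rw [this]
        rcases h with h | h <;> simp [pre, h, hD]
      · have := pre_of_step ho hp (q := ub (i + 1)) (show i + 1 ≤ n from hi) h2
        apply h1
        rw [this]; simp [pre, hB]
    · rw [stepP_insert _ h1]
      intro h2; apply hpD; rw [h2]; simp [hD]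

lemma rule_lU (ho : Outer n fin o) {i : ℕ} (hi : i < n) (h : s i = .LU ∨ s i = .BU) :
    SameW fin (stepP n o s (insert i B)) (stepP n o s B) := by
  by_cases hB : i ∈ B
  · rw [insert_eq_of_mem hB]; intro x _ y _; exact Iff.rfl
  set D : Set (Port Tm) := {lb i, ua i} with hD
  have hlb : ∀ B', stepP n o s B' (lb i) = ua i := by
    intro B'; rcases h with h | h <;> simp [stepP, h, hi]
  apply SameW.symm
  apply same_of_local (n := n) (D := D) (by intro x; simp [hD])
  intro p hp hpD
  by_cases h1 : p = la i
  · refine ⟨ub i, Val_of_Outp (show i ≤ n from hi.le), by simp [hD], ?_, ?_⟩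
    · subst h1
      refine Ret.cons (by simp [stepP, hB, hD]) ?_
      rw [show stepP n o s B (la i) = lb i by simp [stepP, hB]]
      refine Ret.cons (by rw [hlb]; simp [hD]) ?_
      rw [hlb]
      exact Ret.one (by simp [stepP, hB])
    · subst h1; exact Ret.one (by simp [stepP])
  · refine ⟨stepP n o s B p, Val_step ho hp, ?_, Ret.one rfl, Ret.one ?_⟩
    · intro h2
      rcases h2 with h2 | h2
      · have := pre_of_step ho hp (q := lb i) (show i ≤ n from hi.le) h2
        apply h1
        rw [this]; simp [pre, hB]
      · have := pre_of_step ho hp (q := ua i) (show i < n from hi) h2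
        apply hpD
        rw [this]
        rcases h with h | h <;> simp [pre, h, hD]
    · rw [stepP_insert h1]
      intro h2; apply hpD; rw [h2]; simp [hD]

lemma rule_rLU (ho : Outer n fin o) {i : ℕ} (hi : i < n) (hB : i + 1 ∈ B) :
    SameW fin (stepP n o (Function.update s i .LU) B) (stepP n o (Function.update s i .K) B) := by
  set D : Set (Port Tm) := {la (i + 1), ub (i + 1)} with hD
  apply SameW.symm
  apply same_of_local (n := n) (D := D) (by intro x; simp [hD])
  intro p hp hpD
  by_cases h1 : p = lb i
  · refine ⟨ua i, Val_of_Outp (show i < n from hi), by simp [hD], ?_, ?_⟩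
    · subst h1
      refine Ret.cons (by simp [stepP, hi, hD]) ?_
      rw [show stepP n o (Function.update s i .K) B (lb i) = la (i + 1) by simp [stepP, hi]]
      refine Ret.cons (by simp [stepP, hB, hD]) ?_
      rw [show stepP n o (Function.update s i .K) B (la (i + 1)) = ub (i + 1) by simp [stepP, hB]]
      exact Ret.one (by simp [stepP])
    · subst h1; exact Ret.one (by simp [stepP, hi])
  · by_cases h2 : p = t i
    · refine ⟨t' i, Val_of_Outp (show i < n from hi), by simp [hD], ?_, ?_⟩
      · subst h2; exact Ret.one (by simp [stepP])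
      · subst h2
        refine Ret.cons (by simp [stepP, hD]) ?_
        rw [show stepP n o (Function.update s i .LU) B (t i) = la (i + 1) by simp [stepP]]
        refine Ret.cons (by simp [stepP, hB, hD]) ?_
        rw [show stepP n o (Function.update s i .LU) B (la (i + 1)) = ub (i + 1) by
          simp [stepP, hB]]
        exact Ret.one (by simp [stepP])
    · refine ⟨stepP n o (Function.update s i .K) B p, Val_step ho hp, ?_, Ret.one rfl, Ret.one ?_⟩
      · intro h3
        rcases h3 with h3 | h3
        · have := pre_of_step ho hp (q := la (i + 1)) ⟨Nat.succ_pos i, hi⟩ h3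
          apply h1
          rw [this]; simp [pre]
        · have := pre_of_step ho hp (q := ub (i + 1)) (show i + 1 ≤ n from hi) h3
          apply hpD
          rw [this]; simp [pre, hB, hD]
      · have h4 : p ≠ ub (i + 1) := by intro h3; apply hpD; rw [h3]; simp [hD]
        rw [stepP_update h1 h4 h2, stepP_update h1 h4 h2]

lemma rule_rBU (ho : Outer n fin o) {i : ℕ} (hi : i < n) (hB : i + 1 ∈ B) :
    SameW fin (stepP n o (Function.update s i .BU) B) (stepP n o (Function.update s i .K) B) := by
  set D : Set (Port Tm) := {la (i + 1), ub (i + 1)} with hD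
  apply SameW.symm
  apply same_of_local (n := n) (D := D) (by intro x; simp [hD])
  intro p hp hpD
  by_cases h1 : p = lb i
  · refine ⟨ua i, Val_of_Outp (show i < n from hi), by simp [hD], ?_, ?_⟩
    · subst h1
      refine Ret.cons (by simp [stepP, hi, hD]) ?_
      rw [show stepP n o (Function.update s i .K) B (lb i) = la (i + 1) by simp [stepP, hi]]
      refine Ret.cons (by simp [stepP, hB, hD]) ?_
      rw [show stepP n o (Function.update s i .K) B (la (i + 1)) = ub (i + 1) by simp [stepP, hB]]
      exact Ret.one (by simp [stepP])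
    · subst h1; exact Ret.one (by simp [stepP, hi])
  · by_cases h2 : p = t i
    · refine ⟨t' i, Val_of_Outp (show i < n from hi), by simp [hD], ?_, ?_⟩
      · subst h2; exact Ret.one (by simp [stepP])
      · subst h2; exact Ret.one (by simp [stepP])
    · refine ⟨stepP n o (Function.update s i .K) B p, Val_step ho hp, ?_, Ret.one rfl, Ret.one ?_⟩
      · intro h3
        rcases h3 with h3 | h3
        · have := pre_of_step ho hp (q := la (i + 1)) ⟨Nat.succ_pos i, hi⟩ h3
          apply h1
          rw [this]; simp [pre]
        · have := pre_of_step ho hp (q := ub (i + 1)) (show i + 1 ≤ n from hi) h3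
          apply hpD
          rw [this]; simp [pre, hB, hD]
      · have h4 : p ≠ ub (i + 1) := by intro h3; apply hpD; rw [h3]; simp [hD]
        rw [stepP_update h1 h4 h2, stepP_update h1 h4 h2]

lemma rule_rRU (ho : Outer n fin o) {i : ℕ} (hi : i < n) (hB : i + 1 ∈ B) :
    SameW fin (stepP n o (Function.update s i .RU) B) (stepP n o (Function.update s i .UC) B) := by
  set D : Set (Port Tm) := {la (i + 1), ub (i + 1)} with hD
  apply SameW.symm
  apply same_of_local (n := n) (D := D) (by intro x; simp [hD])
  intro p hp hpD
  by_cases h1 : p = lb i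
  · refine ⟨t' i, Val_of_Outp (show i < n from hi), by simp [hD], ?_, ?_⟩
    · subst h1
      refine Ret.cons (by simp [stepP, hi, hD]) ?_
      rw [show stepP n o (Function.update s i .UC) B (lb i) = la (i + 1) by simp [stepP, hi]]
      refine Ret.cons (by simp [stepP, hB, hD]) ?_
      rw [show stepP n o (Function.update s i .UC) B (la (i + 1)) = ub (i + 1) by simp [stepP, hB]]
      exact Ret.one (by simp [stepP])
    · subst h1; exact Ret.one (by simp [stepP, hi])
  · by_cases h2 : p = t i
    · refine ⟨ua i, Val_of_Outp (show i < n from hi), by simp [hD], ?_, ?_⟩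
      · subst h2; exact Ret.one (by simp [stepP])
      · subst h2; exact Ret.one (by simp [stepP])
    · refine ⟨stepP n o (Function.update s i .UC) B p, Val_step ho hp, ?_, Ret.one rfl, Ret.one ?_⟩
      · intro h3
        rcases h3 with h3 | h3
        · have := pre_of_step ho hp (q := la (i + 1)) ⟨Nat.succ_pos i, hi⟩ h3
          apply h1
          rw [this]; simp [pre]
        · have := pre_of_step ho hp (q := ub (i + 1)) (show i + 1 ≤ n from hi) h3
          apply hpD
          rw [this]; simp [pre, hB, hD]
      · have h4 : p ≠ ub (i + 1) := by intro h3; apply hpD; rw [h3]; simp [hD]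
        rw [stepP_update h1 h4 h2, stepP_update h1 h4 h2]

lemma rule_lLU (ho : Outer n fin o) {i : ℕ} (hi : i < n) (hB : i ∈ B) :
    SameW fin (stepP n o (Function.update s i .LU) B) (stepP n o (Function.update s i .UC) B) := by
  set D : Set (Port Tm) := {lb i, ua i} with hD
  apply SameW.symm
  apply same_of_local (n := n) (D := D) (by intro x; simp [hD])
  intro p hp hpD
  by_cases h1 : p = t i
  · refine ⟨la (i + 1), Val_of_Outp ⟨Nat.succ_pos i, hi⟩, by simp [hD], ?_, ?_⟩
    · subst h1
      refine Ret.cons (by simp [stepP, hD]) ?_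
      rw [show stepP n o (Function.update s i .UC) B (t i) = ua i by simp [stepP]]
      refine Ret.cons (by simp [stepP, hB, hD]) ?_
      rw [show stepP n o (Function.update s i .UC) B (ua i) = lb i by simp [stepP, hB]]
      exact Ret.one (by simp [stepP, hi])
    · subst h1; exact Ret.one (by simp [stepP])
  · by_cases h2 : p = ub (i + 1)
    · refine ⟨t' i, Val_of_Outp (show i < n from hi), by simp [hD], ?_, ?_⟩
      · subst h2; exact Ret.one (by simp [stepP])
      · subst h2; exact Ret.one (by simp [stepP])
    · refine ⟨stepP n o (Function.update s i .UC) B p, Val_step ho hp, ?_, Ret.one rfl, Ret.one ?_⟩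
      · intro h3
        rcases h3 with h3 | h3
        · have := pre_of_step ho hp (q := lb i) (show i ≤ n from hi.le) h3
          apply hpD
          rw [this]; simp [pre, hB, hD]
        · have := pre_of_step ho hp (q := ua i) (show i < n from hi) h3
          apply h1
          rw [this]; simp [pre]
      · have h4 : p ≠ lb i := by intro h3; apply hpD; rw [h3]; simp [hD]
        rw [stepP_update h4 h2 h1, stepP_update h4 h2 h1]

lemma rule_pass (ho : Outer n fin o) {i : ℕ} (hi : i < n) (h : s i = .K) :
    SameW fin (stepP n o s (insert i B)) (stepP n o s (insert (i + 1) B)) := by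
  set D : Set (Port Tm) := {lb i, ua i, la (i + 1), ub (i + 1)} with hD
  have hlb : ∀ B', stepP n o s B' (lb i) = la (i + 1) := by intro B'; simp [stepP, h, hi]
  have hub : ∀ B', stepP n o s B' (ub (i + 1)) = ua i := by intro B'; simp [stepP, h]
  apply same_of_local (n := n) (D := D) (by intro x; simp [hD])
  intro p hp hpD
  by_cases h1 : p = la i
  · refine ⟨ub i, Val_of_Outp (show i ≤ n from hi.le), by simp [hD], ?_, ?_⟩
    · subst h1; exact Ret.one (by simp [stepP])
    · subst h1
      by_cases hB : i ∈ B
      · exact Ret.one (by simp [stepP, hB])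
      · have e1 : stepP n o s (insert (i + 1) B) (la i) = lb i := by simp [stepP, hB]
        have e2 : stepP n o s (insert (i + 1) B) (la (i + 1)) = ub (i + 1) := by simp [stepP]
        have e3 : stepP n o s (insert (i + 1) B) (ua i) = ub i := by simp [stepP, hB]
        refine Ret.cons (by rw [e1]; simp [hD]) ?_
        rw [e1]
        refine Ret.cons (by rw [hlb]; simp [hD]) ?_
        rw [hlb]
        refine Ret.cons (by rw [e2]; simp [hD]) ?_
        rw [e2]
        refine Ret.cons (by rw [hub]; simp [hD]) ?_
        rw [hub]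
        exact Ret.one e3
  · by_cases h2 : p = ua (i + 1)
    · refine ⟨lb (i + 1), Val_of_Outp (show i + 1 ≤ n from hi), by simp [hD], ?_, ?_⟩
      · subst h2
        by_cases hB : i + 1 ∈ B
        · exact Ret.one (by simp [stepP, hB])
        · have e1 : stepP n o s (insert i B) (ua (i + 1)) = ub (i + 1) := by simp [stepP, hB]
          have e2 : stepP n o s (insert i B) (ua i) = lb i := by simp [stepP]
          have e3 : stepP n o s (insert i B) (la (i + 1)) = lb (i + 1) := by simp [stepP, hB]
          refine Ret.cons (by rw [e1]; simp [hD]) ?_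
          rw [e1]
          refine Ret.cons (by rw [hub]; simp [hD]) ?_
          rw [hub]
          refine Ret.cons (by rw [e2]; simp [hD]) ?_
          rw [e2]
          refine Ret.cons (by rw [hlb]; simp [hD]) ?_
          rw [hlb]
          exact Ret.one e3
      · subst h2; exact Ret.one (by simp [stepP])
    · have h3 : p ≠ ua i := by intro h3; apply hpD; rw [h3]; simp [hD]
      have h4 : p ≠ la (i + 1) := by intro h3; apply hpD; rw [h3]; simp [hD]
      refine ⟨stepP n o s (insert i B) p, Val_step ho hp, ?_, Ret.one rfl, Ret.one ?_⟩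
      · intro h5
        rcases h5 with h5 | h5 | h5 | h5
        · have := pre_of_step ho hp (q := lb i) (show i ≤ n from hi.le) h5
          apply hpD
          rw [this]; simp [pre, hD]
        · have := pre_of_step ho hp (q := ua i) (show i < n from hi) h5
          apply hpD
          rw [this]; simp [pre, h, hD]
        · have := pre_of_step ho hp (q := la (i + 1)) ⟨Nat.succ_pos i, hi⟩ h5
          apply hpD
          rw [this]; simp [pre, h, hD]
        · have := pre_of_step ho hp (q := ub (i + 1)) (show i + 1 ≤ n from hi) h5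
          by_cases hB : i + 1 ∈ B
          · apply hpD
            rw [this]; simp [pre, hB, hD]
          · apply h2
            rw [this]; simp [pre, hB]
      · rw [stepP_insert h1 h3, stepP_insert h4 h2]

/-- **The local rules hold for every function of the wiring.** -/
theorem rules_of (ho : Outer n fin o) {F : (ℕ → St) → Finset ℕ → ℂ}
    (hF : ∀ s B s' B', SameW fin (stepP n o s B) (stepP n o s' B') → F s B = F s' B') :
    Rules n F where
  rU _ _ _ hi h := hF _ _ _ _ (rule_rU ho hi h)
  lU _ _ _ hi h := hF _ _ _ _ (rule_lU ho hi h)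
  rLU _ _ _ hi h := hF _ _ _ _ (rule_rLU ho hi h)
  rBU _ _ _ hi h := hF _ _ _ _ (rule_rBU ho hi h)
  rRU _ _ _ hi h := hF _ _ _ _ (rule_rRU ho hi h)
  lLU _ _ _ hi h := hF _ _ _ _ (rule_lLU ho hi h)
  pass _ _ _ hi h := hF _ _ _ _ (rule_pass ho hi h)

end Pool.Agent.Q1.M6a.T2
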