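import Mathlib
import Pool.Agent.Q1.M6a.T2Wire

set_option autoImplicit false
open Finset

/-! # The planarity rules of the double row

`Strands`: the natural strands through the caps. If the strand of the caps `i < j` is the same, then
everything between them is trapped under it; a closed strand only visits caps; a dead strand encloses
everything on its right, up to one port. -/

namespace Pool.Agent.Q1.M6a.T2

open Port

variable {Tm ι : Type*} {n : ℕ} {fin : Set Tm} {o : Port Tm → Port Tm} {s : ℕ → St} {B : Finset ℕ}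
  {st : ℕ → ι} {dead vis : ι → Prop}

/-- the natural strands of the layer -/
structure Strands (n : ℕ) (o : Port Tm → Port Tm) (st : ℕ → ι) (dead vis : ι → Prop) : Prop where
  closed : ∀ k < n, ¬ vis (st k) → ∃ k' < n, o (t' k) = t k' ∧ st k' = st k
  trap : ∀ i j, i < j → j < n → st i = st j → ∀ k, i ≤ k → k < j →
    ∃ k', i < k' ∧ k' ≤ j ∧ o (t' k) = t k'
  end_ : ∀ i < n, dead (st i) → ∃ x : Port Tm, x ≠ ua n ∧ (∀ k', i < k' → x ≠ t k') ∧
    ∀ p, (p = lb n ∨ ∃ k, i ≤ k ∧ k < n ∧ p = t' k) →
      (∃ k', i < k' ∧ k' < n ∧ o p = t k') ∨ o p = ua n ∨ o p = x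

/-- the region between the caps `i` and `j` -/
def Reg (i j : ℕ) : Port Tm → Prop
  | la a => i < a ∧ a ≤ j
  | lb a => i < a ∧ a ≤ j
  | ua a => i < a ∧ a ≤ j
  | ub a => i < a ∧ a ≤ j
  | t k => i < k ∧ k ≤ j
  | t' k => i ≤ k ∧ k < j
  | tm _ => False

lemma Reg_finite (i j : ℕ) : {p : Port Tm | Reg i j p}.Finite := by
  have h1 : ((fun a => (la a : Port Tm)) '' (Set.Icc 0 j)).Finite := (Set.finite_Icc 0 j).image _
  have h2 : ((fun a => (lb a : Port Tm)) '' (Set.Icc 0 j)).Finite := (Set.finite_Icc 0 j).image _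
  have h3 : ((fun a => (ua a : Port Tm)) '' (Set.Icc 0 j)).Finite := (Set.finite_Icc 0 j).image _
  have h4 : ((fun a => (ub a : Port Tm)) '' (Set.Icc 0 j)).Finite := (Set.finite_Icc 0 j).image _
  have h5 : ((fun a => (t a : Port Tm)) '' (Set.Icc 0 j)).Finite := (Set.finite_Icc 0 j).image _
  have h6 : ((fun a => (t' a : Port Tm)) '' (Set.Icc 0 j)).Finite := (Set.finite_Icc 0 j).image _
  refine (((((h1.union h2).union h3).union h4).union h5).union h6).subset ?_
  intro p hp
  cases p with
  | la a => exact Or.inl (Or.inl (Or.inl (Or.inl (Or.inl ⟨a, ⟨Nat.zero_le _, hp.2⟩, rfl⟩))))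
  | lb a => exact Or.inl (Or.inl (Or.inl (Or.inl (Or.inr ⟨a, ⟨Nat.zero_le _, hp.2⟩, rfl⟩))))
  | ua a => exact Or.inl (Or.inl (Or.inl (Or.inr ⟨a, ⟨Nat.zero_le _, hp.2⟩, rfl⟩)))
  | ub a => exact Or.inl (Or.inl (Or.inr ⟨a, ⟨Nat.zero_le _, hp.2⟩, rfl⟩))
  | t a => exact Or.inl (Or.inr ⟨a, ⟨Nat.zero_le _, hp.2⟩, rfl⟩)
  | t' a => exact Or.inr ⟨a, ⟨Nat.zero_le _, le_of_lt hp.2⟩, rfl⟩
  | tm x => exact hp.elim

/-- trapped between two cuts of the same strand -/
lemma trap_map (hs : Strands n o st dead vis) {i j : ℕ} (hij : i < j) (hj : j < n)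
    (h : st i = st j) (hsi : s i = .UC) (hsj : s j = .UC) (q : Port Tm) (hq : Reg i j q) :
    Reg i j (stepP n o s B q) ∨ stepP n o s B q = la (j + 1) := by
  cases q with
  | la a => left; simp only [stepP]; split_ifs <;> exact hq
  | ua a => left; simp only [stepP]; split_ifs <;> exact hq
  | lb a =>
    have h1 : i < a := hq.1
    have h2 : a ≤ j := hq.2
    have h3 : a < n := by omega
    rcases eq_or_lt_of_le h2 with h4 | h4
    · right; subst h4; simp [stepP, h3, hsj]
    · left
      simp only [stepP, if_pos h3]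
      cases s a <;> simp only [Reg] <;> omega
  | ub a =>
    have h1 : i < a := hq.1
    have h2 : a ≤ j := hq.2
    obtain ⟨a', rfl⟩ : ∃ a', a = a' + 1 := ⟨a - 1, by omega⟩
    left
    rcases Nat.lt_or_ge i a' with h3 | h3
    · simp only [stepP]
      cases s a' <;> simp only [Reg] <;> omega
    · have h4 : a' = i := by omega
      subst h4
      simp only [stepP, hsi]
      exact ⟨le_rfl, hij⟩
  | t k =>
    have h1 : i < k := hq.1
    have h2 : k ≤ j := hq.2
    left
    rcases eq_or_lt_of_le h2 with h4 | h4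
    · subst h4; simp only [stepP, hsj]; exact ⟨h1, le_rfl⟩
    · simp only [stepP]
      cases s k <;> simp only [Reg] <;> omega
  | t' k =>
    left
    obtain ⟨k', h3, h4, h5⟩ := hs.trap i j hij hj h k hq.1 hq.2
    show Reg i j (o (t' k))
    rw [h5]; exact ⟨h3, h4⟩
  | tm x => exact hq.elim

lemma Reg_Val {i j : ℕ} (hj : j ≤ n) {q : Port Tm} (hq : Reg i j q) (ht : ∀ k, q = t k → k < n) :
    Src n fin q ∨ Inn n q := by
  cases q with
  | la a => right; exact le_trans hq.2 hj
  | ua a => right; exact le_trans hq.2 hj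
  | lb a =>
    have h2 : a ≤ j := hq.2
    rcases Nat.lt_or_ge a n with h | h
    · right; exact h
    · left; show a = n; omega
  | ub a => right; exact ⟨by have := hq.1; omega, le_trans hq.2 hj⟩
  | t k => right; exact ht k rfl
  | t' k => left; show k < n; have := hq.2; omega
  | tm x => exact hq.elim

lemma rule_two (ho : Outer n fin o) (hs : Strands n o st dead vis) {i j : ℕ} (hij : i < j)
    (hj : j < n) (h : st i = st j) (hsi : s i = .UC) (hsj : s j = .UC) :
    SameW fin (stepP n o s (insert j B)) (stepP n o s B) := by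
  set D : Set (Port Tm) := {p | Reg i j p} with hD
  have hfin : D.Finite := Reg_finite i j
  have hx : (la (j + 1) : Port Tm) ∉ D := by
    intro h1; have h2 : j + 1 ≤ j := h1.2; omega
  have hret : ∀ B' : Finset ℕ, ∀ p, Val n fin p → p ∉ D → stepP n o s B' p ∈ D →
      Ret (stepP n o s B') D p (la (j + 1)) := by
    intro B' p hp hpD h1
    have hp' : Src n fin p ∨ Inn n p := by
      rcases hp with h2 | h2 | ⟨y, hy, rfl⟩
      · exact Or.inl h2
      · exact Or.inr h2
      · exfalso
        have h3 : stepP n o s B' (tm y) = tm y := ho.final y hy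
        rw [h3] at h1
        exact h1
    refine trapped hfin hpD h1 (fun q hq => trap_map hs hij hj h hsi hsj q hq) ?_
    have hv : ∀ q, q ∈ D ∨ q = p → Src n fin q ∨ Inn n q := by
      rintro q (hq | rfl)
      · exact Reg_Val hj.le hq (fun k hk => by subst hk; have h2 : k ≤ j := hq.2; omega)
      · exact hp'
    exact fun q q' hq hq' he => stepP_inj ho (hv q hq) (hv q' hq') he
  apply SameW.symm
  apply same_of_local (n := n) (D := D) (by intro x h1; exact h1)
  intro p hp hpD
  -- outside of the region the maps agree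
  have hne : p ≠ la j ∧ p ≠ ua j := by
    constructor
    · rintro rfl; exact hpD ⟨hij, le_rfl⟩
    · rintro rfl; exact hpD ⟨hij, le_rfl⟩
  have e1 := stepP_insert (n := n) (o := o) (s := s) (B := B) hne.1 hne.2
  by_cases h1 : stepP n o s B p ∈ D
  · refine ⟨la (j + 1), Val_of_Outp ⟨Nat.succ_pos j, hj⟩, hx, hret B p hp hpD h1,
      hret (insert j B) p hp hpD (by rw [e1]; exact h1)⟩
  · exact ⟨stepP n o s B p, Val_step ho hp, h1, Ret.one rfl, Ret.one e1⟩

/-- the ports of a strand at the caps -/
def SReg (n : ℕ) (st : ℕ → ι) (σ : ι) : Port Tm → Prop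
  | t k => k < n ∧ st k = σ
  | t' k => k < n ∧ st k = σ
  | _ => False

lemma SReg_finite (σ : ι) : {p : Port Tm | SReg n st σ p}.Finite := by
  have h5 : ((fun a => (t a : Port Tm)) '' (Set.Icc 0 n)).Finite := (Set.finite_Icc 0 n).image _
  have h6 : ((fun a => (t' a : Port Tm)) '' (Set.Icc 0 n)).Finite := (Set.finite_Icc 0 n).image _
  refine (h5.union h6).subset ?_
  intro p hp
  cases p with
  | t a => exact Or.inl ⟨a, ⟨Nat.zero_le _, le_of_lt hp.1⟩, rfl⟩
  | t' a => exact Or.inr ⟨a, ⟨Nat.zero_le _, le_of_lt hp.1⟩, rfl⟩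
  | la a => exact hp.elim
  | lb a => exact hp.elim
  | ua a => exact hp.elim
  | ub a => exact hp.elim
  | tm x => exact hp.elim

/-- a closed strand is left by nothing and entered by nothing -/
lemma closed_surj (hs : Strands n o st dead vis) (ho : Outer n fin o) {σ : ι} (hσ : ¬ vis σ)
    {k : ℕ} (hk : k < n) (hkσ : st k = σ) : ∃ k0 < n, o (t' k0) = t k ∧ st k0 = σ := by
  classical
  set C := (range n).filter (fun k => st k = σ) with hC
  have h1 : ∀ k ∈ C, ∃ k', k' ∈ C ∧ o (t' k) = t k' := by
    intro k hk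
    rw [hC, mem_filter, mem_range] at hk
    obtain ⟨k', h2, h3, h4⟩ := hs.closed k hk.1 (by rw [hk.2]; exact hσ)
    exact ⟨k', mem_filter.2 ⟨mem_range.2 h2, h4.trans hk.2⟩, h3⟩
  choose! φ hφ1 hφ2 using h1
  have hinj : Set.InjOn φ C := by
    intro a ha b hb hab
    have e1 := hφ2 a ha
    have e2 := hφ2 b hb
    rw [hab, ← e2] at e1
    have ha' := mem_range.1 (mem_filter.1 ha).1
    have hb' := mem_range.1 (mem_filter.1 hb).1
    have := ho.inj (t' a) (t' b) ha' hb' e1
    simpa using this
  have himg : C.image φ = C := by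
    refine Finset.eq_of_subset_of_card_le ?_ ?_
    · intro b hb
      obtain ⟨a, ha, rfl⟩ := mem_image.1 hb
      exact hφ1 a ha
    · rw [Finset.card_image_of_injOn hinj]
  have hkC : k ∈ C.image φ := by
    rw [himg, hC]; exact mem_filter.2 ⟨mem_range.2 hk, hkσ⟩
  obtain ⟨k0, hk0, h3⟩ := mem_image.1 hkC
  have h4 := mem_filter.1 hk0
  refine ⟨k0, mem_range.1 h4.1, ?_, h4.2⟩
  rw [hφ2 k0 hk0, h3]

lemma rule_one (ho : Outer n fin o) (hs : Strands n o st dead vis) {i : ℕ} (hi : i < n)
    (hv : ¬ vis (st i)) (hK : ∀ k < n, st k = st i → k ≠ i → s k = .K) :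
    SameW fin (stepP n o (Function.update s i .UC) B) (stepP n o (Function.update s i .K) B) := by
  set D : Set (Port Tm) := {p | SReg n st (st i) p} with hD
  have hfin : D.Finite := SReg_finite (st i)
  set g := stepP n o (Function.update s i .UC) B with hg
  set g' := stepP n o (Function.update s i .K) B with hg'
  -- the other map agrees outside, except at `ub (i+1)`
  have hret : Ret g D (ub (i + 1)) (ua i) := by
    have h0 : (ub (i + 1) : Port Tm) ∉ D := fun h => h
    have h1 : g (ub (i + 1)) = t' i := by simp [hg, stepP]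
    refine trapped hfin h0 (by rw [h1]; exact ⟨hi, rfl⟩) ?_ ?_
    · intro q hq
      cases q with
      | t k =>
        have hq' : k < n ∧ st k = st i := hq
        by_cases hki : k = i
        · right; subst hki; simp [hg, stepP]
        · left
          have h2 : Function.update s i St.UC k = .K := by
            rw [Function.update_of_ne hki]; exact hK k hq'.1 hq'.2 hki
          have h3 : g (t k) = t' k := by simp only [hg, stepP, h2]
          rw [h3]; exact hq'
      | t' k =>
        left
        have hq' : k < n ∧ st k = st i := hq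
        obtain ⟨k', h2, h3, h4⟩ := hs.closed k hq'.1 (by rw [hq'.2]; exact hv)
        have h5 : g (t' k) = t k' := h3
        rw [h5]; exact ⟨h2, h4.trans hq'.2⟩
      | la a => exact hq.elim
      | lb a => exact hq.elim
      | ua a => exact hq.elim
      | ub a => exact hq.elim
      | tm x => exact hq.elim
    · have hv : ∀ q, q ∈ D ∨ q = ub (i + 1) → Src n fin q ∨ Inn n q := by
        rintro q (hq | rfl)
        · cases q with
          | t k => right; exact hq.1
          | t' k => left; exact hq.1
          | la a => exact hq.elim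
          | lb a => exact hq.elim
          | ua a => exact hq.elim
          | ub a => exact hq.elim
          | tm x => exact hq.elim
        · right; exact ⟨Nat.succ_pos i, hi⟩
      exact fun q q' hq hq' he => stepP_inj ho (hv q hq) (hv q' hq') he
  have hout : ∀ p, Val n fin p → p ∉ D → g' p ∉ D := by
    intro p hp hpD h1
    have hcase : (∃ k, g' p = t k ∧ k < n ∧ st k = st i) ∨
        ∃ k, g' p = t' k ∧ k < n ∧ st k = st i := by
      generalize g' p = q at h1
      cases q with
      | t k => left; exact ⟨k, rfl, h1.1, h1.2⟩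
      | t' k => right; exact ⟨k, rfl, h1.1, h1.2⟩
      | la a => exact h1.elim
      | lb a => exact h1.elim
      | ua a => exact h1.elim
      | ub a => exact h1.elim
      | tm x => exact h1.elim
    rcases hcase with ⟨k, h2, h3, h4⟩ | ⟨k, h2, h3, h4⟩
    · obtain ⟨k0, h5, h6, h7⟩ := closed_surj hs ho hv h3 h4
      rcases hp with hp | hp | ⟨y, hy, rfl⟩
      · rw [hg', stepP_Src hp] at h2
        have := ho.inj p (t' k0) hp h5 (h2.trans h6.symm)
        exact hpD (by rw [this]; exact ⟨h5, h7⟩)
      · have h8 := stepP_Outp (o := o) (s := Function.update s i .K) (B := B) hp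
        rw [← hg', h2] at h8
        exact h8
      · have h8 : g' (tm y) = tm y := ho.final y hy
        rw [h8] at h2
        exact absurd h2 (by simp)
    · have h5 := pre_of_step ho hp (q := t' k) h3 h2
      apply hpD
      rw [h5]
      have h6 : Function.update s i St.K k = .K := by
        by_cases hki : k = i
        · subst hki; simp
        · rw [Function.update_of_ne hki]; exact hK k h3 h4 hki
      simp only [pre, h6]
      exact ⟨h3, h4⟩
  apply SameW.symm
  apply same_of_local (n := n) (D := D) (by intro x h1; exact h1)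
  intro p hp hpD
  by_cases h1 : p = ub (i + 1)
  · subst h1
    refine ⟨ua i, Val_of_Outp hi, fun h => h, Ret.one (by simp [hg', stepP]), hret⟩
  · refine ⟨g' p, Val_step ho hp, hout p hp hpD, Ret.one rfl, Ret.one ?_⟩
    have h2 : p ≠ t i := by rintro rfl; exact hpD ⟨hi, rfl⟩
    by_cases h3 : p = lb i
    · subst h3; simp [hg, hg', stepP, hi]
    · rw [hg, hg', stepP_update h3 h1 h2, stepP_update h3 h1 h2]

lemma fin_map {i : ℕ} (hi : i < n) (hsi : s i = .UC) {x : Port Tm}
    (hx : ∀ p, (p = lb n ∨ ∃ k, i ≤ k ∧ k < n ∧ p = t' k) →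
      (∃ k', i < k' ∧ k' < n ∧ o p = t k') ∨ o p = ua n ∨ o p = x)
    (q : Port Tm) (hq : Reg i n q ∧ ∀ k, q = t k → k < n) :
    (Reg i n (stepP n o s B q) ∧ ∀ k, stepP n o s B q = t k → k < n) ∨ stepP n o s B q = x := by
  obtain ⟨hq, hqt⟩ := hq
  have hsrc : ∀ p, (p = lb n ∨ ∃ k, i ≤ k ∧ k < n ∧ p = t' k) →
      (Reg i n (o p) ∧ ∀ k, o p = t k → k < n) ∨ o p = x := by
    intro p hp
    rcases hx p hp with ⟨k', h1, h2, h3⟩ | h3 | h3
    · left; rw [h3]
      refine ⟨⟨h1, h2.le⟩, fun k hk => ?_⟩
      have : k' = k := by simpa using hk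
      omega
    · left; rw [h3]
      exact ⟨⟨hi, le_rfl⟩, fun k hk => absurd hk (by simp)⟩
    · right; exact h3
  cases q with
  | la a =>
    left; simp only [stepP]; split_ifs
    · exact ⟨hq, fun k hk => absurd hk (by simp)⟩
    · exact ⟨hq, fun k hk => absurd hk (by simp)⟩
  | ua a =>
    left; simp only [stepP]; split_ifs
    · exact ⟨hq, fun k hk => absurd hk (by simp)⟩
    · exact ⟨hq, fun k hk => absurd hk (by simp)⟩
  | lb a =>
    have h1 : i < a := hq.1
    have h2 : a ≤ n := hq.2
    rcases eq_or_lt_of_le h2 with h4 | h4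
    · have e : stepP n o s B (lb a) = o (lb a) := stepP_Src (fin := (∅ : Set Tm)) h4
      rw [e]; exact hsrc _ (Or.inl (by rw [h4]))
    · left
      simp only [stepP, if_pos h4]
      cases s a <;> simp [Reg] <;> omega
  | ub a =>
    have h1 : i < a := hq.1
    have h2 : a ≤ n := hq.2
    obtain ⟨a', rfl⟩ : ∃ a', a = a' + 1 := ⟨a - 1, by omega⟩
    left
    rcases Nat.lt_or_ge i a' with h3 | h3
    · simp only [stepP]
      cases s a' <;> simp [Reg] <;> omega
    · have h4 : a' = i := by omega
      subst h4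
      simp only [stepP, hsi]
      exact ⟨⟨le_rfl, hi⟩, fun k hk => absurd hk (fun h => by cases h)⟩
  | t k =>
    have h1 : i < k := hq.1
    have h2 : k < n := hqt k rfl
    left
    simp only [stepP]
    cases s k <;> simp [Reg] <;> omega
  | t' k =>
    show (Reg i n (o (t' k)) ∧ ∀ k1, o (t' k) = t k1 → k1 < n) ∨ o (t' k) = x
    exact hsrc _ (Or.inr ⟨k, hq.1, hq.2, rfl⟩)
  | tm y => exact hq.elim

lemma rule_fin (ho : Outer n fin o) (hs : Strands n o st dead vis) {i : ℕ} (hi : i < n)
    (hd : dead (st i)) (hsi : s i = .UC) :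
    SameW fin (stepP n o s (insert n B)) (stepP n o s B) := by
  obtain ⟨x, hx1, hx2, hx3⟩ := hs.end_ i hi hd
  set D : Set (Port Tm) := {p | Reg i n p ∧ ∀ k, p = t k → k < n} with hD
  have hfin : D.Finite := (Reg_finite i n).subset fun p hp => hp.1
  -- the exit is a target of the outside map or it is not used
  by_cases hxt : Tgt n fin x
  · have hx : x ∉ D := by
      intro h1
      cases x with
      | la a =>
        have h2 : i < a := h1.1.1
        have h3 : a = 0 := hxt
        omega
      | ua a =>
        have h3 : a = n := hxt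
        exact hx1 (by rw [h3])
      | lb a => exact hxt
      | ub a => exact hxt
      | t k => exact hx2 k h1.1.1 rfl
      | t' k => exact hxt
      | tm y => exact h1.1
    have hret : ∀ B' : Finset ℕ, ∀ p, Val n fin p → p ∉ D → stepP n o s B' p ∈ D →
        Ret (stepP n o s B') D p x := by
      intro B' p hp hpD h1
      have hp' : Src n fin p ∨ Inn n p := by
        rcases hp with h2 | h2 | ⟨y, hy, rfl⟩
        · exact Or.inl h2
        · exact Or.inr h2
        · exfalso
          have h3 : stepP n o s B' (tm y) = tm y := ho.final y hy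
          rw [h3] at h1
          exact h1.1
      refine trapped hfin hpD h1 (fun q hq => fin_map hi hsi hx3 q hq) ?_
      have hv : ∀ q, q ∈ D ∨ q = p → Src n fin q ∨ Inn n q := by
        rintro q (hq | rfl)
        · exact Reg_Val le_rfl hq.1 hq.2
        · exact hp'
      exact fun q q' hq hq' he => stepP_inj ho (hv q hq) (hv q' hq') he
    apply SameW.symm
    apply same_of_local (n := n) (D := D) (by intro x h1; exact h1.1)
    intro p hp hpD
    have hne : p ≠ la n ∧ p ≠ ua n := by
      constructor
      · rintro rfl; exact hpD ⟨⟨hi, le_rfl⟩, fun k hk => absurd hk (by simp)⟩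
      · rintro rfl; exact hpD ⟨⟨hi, le_rfl⟩, fun k hk => absurd hk (by simp)⟩
    have e1 := stepP_insert (n := n) (o := o) (s := s) (B := B) hne.1 hne.2
    by_cases h1 : stepP n o s B p ∈ D
    · exact ⟨x, Val_of_Tgt hxt, hx, hret B p hp hpD h1,
        hret (insert n B) p hp hpD (by rw [e1]; exact h1)⟩
    · exact ⟨stepP n o s B p, Val_step ho hp, h1, Ret.one rfl, Ret.one e1⟩
  · -- no exit at all: impossible, one port too many
    exfalso
    classical
    have hex : ∀ p, (p = lb n ∨ ∃ k, i ≤ k ∧ k < n ∧ p = t' k) →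
        (∃ k', i < k' ∧ k' < n ∧ o p = t k') ∨ o p = ua n := by
      intro p hp
      have hsrc : Src n fin p := by
        rcases hp with rfl | ⟨k, _, hk, rfl⟩
        · show n = n; rfl
        · exact hk
      rcases hx3 p hp with h1 | h1 | h1
      · exact Or.inl h1
      · exact Or.inr h1
      · exact absurd (h1 ▸ ho.maps p hsrc) hxt
    -- number the sources by `[i, n]` and the targets by `(i, n]`
    set src : ℕ → Port Tm := fun k => if k = n then lb n else t' k with hsrc
    have hsrc' : ∀ k ∈ Finset.Icc i n, src k = lb n ∨ ∃ k', i ≤ k' ∧ k' < n ∧ src k = t' k' := by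
      intro k hk
      rw [Finset.mem_Icc] at hk
      by_cases h : k = n
      · left; simp [hsrc, h]
      · right; exact ⟨k, hk.1, by omega, by simp [hsrc, h]⟩
    have htgt : ∀ k ∈ Finset.Icc i n, ∃ k', k' ∈ Finset.Ioc i n ∧
        o (src k) = if k' = n then ua n else t k' := by
      intro k hk
      rcases hex _ (hsrc' k hk) with ⟨k', h1, h2, h3⟩ | h3
      · exact ⟨k', Finset.mem_Ioc.2 ⟨h1, h2.le⟩, by rw [if_neg (by omega)]; exact h3⟩
      · exact ⟨n, Finset.mem_Ioc.2 ⟨hi, le_rfl⟩, by rw [if_pos rfl]; exact h3⟩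
    choose! φ hφ1 hφ2 using htgt
    have hcard : (Finset.Ioc i n).card < (Finset.Icc i n).card := by
      rw [Nat.card_Ioc, Nat.card_Icc]; omega
    obtain ⟨a, ha, b, hb, hab, he⟩ :=
      Finset.exists_ne_map_eq_of_card_lt_of_maps_to hcard (fun k hk => hφ1 k hk)
    have h1 : o (src a) = o (src b) := by rw [hφ2 a ha, hφ2 b hb, he]
    have hS : ∀ k ∈ Finset.Icc i n, Src n fin (src k) := by
      intro k hk
      rcases hsrc' k hk with h2 | ⟨k', _, h3, h2⟩
      · rw [h2]; show n = n; rfl
      · rw [h2]; exact h3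
    have h2 := ho.inj _ _ (hS a ha) (hS b hb) h1
    by_cases han : a = n <;> by_cases hbn : b = n <;> simp [hsrc, han, hbn] at h2
    · omega
    · exact hab h2

/-- **The planarity rules hold for every function of the wiring.** -/
theorem planar_of (ho : Outer n fin o) (hs : Strands n o st dead vis)
    {F : (ℕ → St) → Finset ℕ → ℂ}
    (hF : ∀ s B s' B', SameW fin (stepP n o s B) (stepP n o s' B') → F s B = F s' B')
    (s : ℕ → St) : Planar n F st dead vis s where
  two S hS B i hi j hj hij h := by
    have hj' := mem_range.1 (hS hj)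
    exact hF _ _ _ _ (rule_two ho hs hij hj' h (by rw [cf_lt (by omega), if_pos hi])
      (by rw [cf_lt hj', if_pos hj]))
  one S hS B i hi hv h := by
    have hi' := mem_range.1 (hS hi)
    have e1 : cf n S s = Function.update (cf n S s) i .UC := by
      have : cf n S s i = .UC := by rw [cf_lt hi', if_pos hi]
      rw [← this, Function.update_eq_self]
    have e2 : cf n (S.erase i) s = Function.update (cf n S s) i .K := by
      funext a
      by_cases ha : a = i
      · subst ha; rw [cf_lt hi', if_neg (notMem_erase a S)]; simp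
      · rw [Function.update_of_ne ha]
        rcases Nat.lt_or_ge a n with h1 | h1
        · rw [cf_lt h1, cf_lt h1]
          simp [mem_erase, ha]
        · rw [cf_ge h1, cf_ge h1]
    rw [e2]
    conv_lhs => rw [e1]
    refine hF _ _ _ _ (rule_one ho hs hi' hv ?_)
    intro k hk h1 h2
    rw [cf_lt hk, if_neg]
    intro h3
    exact h2 (h k h3 h1)
  fin S hS B i hi hd := by
    have hi' := mem_range.1 (hS hi)
    exact hF _ _ _ _ (rule_fin ho hs hi' hd (by rw [cf_lt hi', if_pos hi]))

end Pool.Agent.Q1.M6a.T2
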