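import Mathlib
import Pool.Agent.Q1.M6a.T2Planar

set_option autoImplicit false
open Finset

/-! # The double row for functions which only obey a flip rule

`F0 s` is a function of the states of the caps (no broken gaps) with the single rule `Flip`: changing the
state of one cap to a neighbouring state (`adj`: one tile is turned) does not change `F0` if the wiring
does not change. Broken gaps are absorbed by the caps (`ab`). Then the function `F0 (ab n B s)` obeys all
rules of the double row. -/

namespace Pool.Agent.Q1.M6a.T2

open Port

/-- states which differ by the turn of one tile -/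
def adj : St → St → Bool
  | .K, .K => true
  | .K, .UC => true
  | .K, .BU => true
  | .UC, .UC => true
  | .UC, .K => true
  | .UC, .LU => true
  | .UC, .RU => true
  | .RU, .RU => true
  | .RU, .UC => true
  | .RU, .BU => true
  | .LU, .LU => true
  | .LU, .UC => true
  | .LU, .BU => true
  | .BU, .BU => true
  | .BU, .K => true
  | .BU, .RU => true
  | .BU, .LU => true
  | _, _ => false

/-- the gap on the left is broken -/
def aL : St → St
  | .K => .BU
  | .UC => .LU
  | .RU => .BU
  | .LU => .LU
  | .BU => .BU

/-- the gap on the right is broken -/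
def aR : St → St
  | .K => .BU
  | .UC => .RU
  | .RU => .RU
  | .LU => .BU
  | .BU => .BU

/-- absorption of the broken gaps -/
def ab (n : ℕ) (B : Finset ℕ) (s : ℕ → St) : ℕ → St := fun i =>
  if i < n then
    (if i + 1 = n ∧ n ∈ B then aR (if i ∈ B then aL (s i) else s i)
      else (if i ∈ B then aL (s i) else s i)) else s i

variable {Tm : Type*} {n : ℕ} {fin : Set Tm} {o : Port Tm → Port Tm} {s : ℕ → St} {B : Finset ℕ}

lemma SameW.refl (g : Port Tm → Port Tm) : SameW fin g g := fun _ _ _ _ => Iff.rfl

lemma SameW.trans {g g' g'' : Port Tm → Port Tm} (h : SameW fin g g') (h' : SameW fin g' g'') :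
    SameW fin g g'' := fun x hx y hy => (h x hx y hy).trans (h' x hx y hy)

/-! ### Absorption does not change the wiring -/

lemma rule_lBU (ho : Outer n fin o) {i : ℕ} (hi : i < n) (hB : i ∈ B) :
    SameW fin (stepP n o (Function.update s i .K) B) (stepP n o (Function.update s i .BU) B) := by
  set D : Set (Port Tm) := {lb i, ua i} with hD
  apply same_of_local (n := n) (D := D) (by intro x; simp [hD])
  intro p hp hpD
  by_cases h1 : p = ub (i + 1)
  · refine ⟨la (i + 1), Val_of_Outp ⟨Nat.succ_pos i, hi⟩, by simp [hD], ?_, ?_⟩
    · subst h1
      refine Ret.cons (by simp [stepP, hD]) ?_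
      rw [show stepP n o (Function.update s i .K) B (ub (i + 1)) = ua i by simp [stepP]]
      refine Ret.cons (by simp [stepP, hB, hD]) ?_
      rw [show stepP n o (Function.update s i .K) B (ua i) = lb i by simp [stepP, hB]]
      exact Ret.one (by simp [stepP, hi])
    · subst h1; exact Ret.one (by simp [stepP])
  · by_cases h2 : p = t i
    · refine ⟨t' i, Val_of_Outp (show i < n from hi), by simp [hD], ?_, ?_⟩
      · subst h2; exact Ret.one (by simp [stepP])
      · subst h2; exact Ret.one (by simp [stepP])
    · refine ⟨stepP n o (Function.update s i .K) B p, Val_step ho hp, ?_, Ret.one rfl, Ret.one ?_⟩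
      · intro h3
        rcases h3 with h3 | h3
        · have := pre_of_step ho hp (q := lb i) (show i ≤ n from hi.le) h3
          apply hpD
          rw [this]; simp [pre, hB, hD]
        · have := pre_of_step ho hp (q := ua i) (show i < n from hi) h3
          apply h1
          rw [this]; simp [pre]
      · have h4 : p ≠ lb i := by intro h3; apply hpD; rw [h3]; simp [hD]
        rw [stepP_update h4 h1 h2, stepP_update h4 h1 h2]

lemma rule_lRBU (ho : Outer n fin o) {i : ℕ} (hi : i < n) (hB : i ∈ B) :
    SameW fin (stepP n o (Function.update s i .RU) B) (stepP n o (Function.update s i .BU) B) := by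
  set D : Set (Port Tm) := {lb i, ua i} with hD
  apply same_of_local (n := n) (D := D) (by intro x; simp [hD])
  intro p hp hpD
  by_cases h1 : p = t i
  · refine ⟨t' i, Val_of_Outp (show i < n from hi), by simp [hD], ?_, ?_⟩
    · subst h1
      refine Ret.cons (by simp [stepP, hD]) ?_
      rw [show stepP n o (Function.update s i .RU) B (t i) = ua i by simp [stepP]]
      refine Ret.cons (by simp [stepP, hB, hD]) ?_
      rw [show stepP n o (Function.update s i .RU) B (ua i) = lb i by simp [stepP, hB]]
      exact Ret.one (by simp [stepP, hi])
    · subst h1; exact Ret.one (by simp [stepP])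
  · by_cases h2 : p = ub (i + 1)
    · refine ⟨la (i + 1), Val_of_Outp ⟨Nat.succ_pos i, hi⟩, by simp [hD], ?_, ?_⟩
      · subst h2; exact Ret.one (by simp [stepP])
      · subst h2; exact Ret.one (by simp [stepP])
    · refine ⟨stepP n o (Function.update s i .RU) B p, Val_step ho hp, ?_, Ret.one rfl, Ret.one ?_⟩
      · intro h3
        rcases h3 with h3 | h3
        · have := pre_of_step ho hp (q := lb i) (show i ≤ n from hi.le) h3
          apply hpD
          rw [this]; simp [pre, hB, hD]
        · have := pre_of_step ho hp (q := ua i) (show i < n from hi) h3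
          apply h1
          rw [this]; simp [pre]
      · have h4 : p ≠ lb i := by intro h3; apply hpD; rw [h3]; simp [hD]
        rw [stepP_update h4 h2 h1, stepP_update h4 h2 h1]

/-- a broken gap is absorbed by the cap on its right -/
lemma gapL (ho : Outer n fin o) {i : ℕ} (hi : i < n) :
    SameW fin (stepP n o s (insert i B)) (stepP n o (Function.update s i (aL (s i))) B) := by
  have hmem : i ∈ insert i B := mem_insert_self _ _
  have h1 : SameW fin (stepP n o s (insert i B))
      (stepP n o (Function.update s i (aL (s i))) (insert i B)) := by
    have hs : s = Function.update s i (s i) := (Function.update_eq_self i s).symm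
    cases h : s i with
    | K =>
      rw [h] at hs
      have := rule_lBU (s := s) ho hi hmem
      rw [← hs] at this; exact this
    | UC =>
      rw [h] at hs
      have := (rule_lLU (s := s) ho hi hmem).symm
      rw [← hs] at this; exact this
    | RU =>
      rw [h] at hs
      have := rule_lRBU (s := s) ho hi hmem
      rw [← hs] at this; exact this
    | LU =>
      rw [h] at hs
      show SameW fin _ (stepP n o (Function.update s i .LU) (insert i B))
      rw [← hs]; exact SameW.refl _
    | BU =>
      rw [h] at hs
      show SameW fin _ (stepP n o (Function.update s i .BU) (insert i B))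
      rw [← hs]; exact SameW.refl _
  refine h1.trans (rule_lU ho hi ?_)
  rw [Function.update_self]
  cases s i <;> simp [aL]

/-- the broken gap `n` is absorbed by the last cap -/
lemma gapR (ho : Outer n fin o) {i : ℕ} (hi : i + 1 = n) :
    SameW fin (stepP n o s (insert n B)) (stepP n o (Function.update s i (aR (s i))) B) := by
  have hin : i < n := by omega
  have hmem : i + 1 ∈ insert n B := by rw [hi]; exact mem_insert_self _ _
  have h1 : SameW fin (stepP n o s (insert n B))
      (stepP n o (Function.update s i (aR (s i))) (insert n B)) := by
    have hs : s = Function.update s i (s i) := (Function.update_eq_self i s).symm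
    cases h : s i with
    | K =>
      rw [h] at hs
      have := (rule_rBU (s := s) ho hin hmem).symm
      rw [← hs] at this; exact this
    | UC =>
      rw [h] at hs
      have := (rule_rRU (s := s) ho hin hmem).symm
      rw [← hs] at this; exact this
    | LU =>
      rw [h] at hs
      have := (rule_rLU (s := s) ho hin hmem).trans (rule_rBU (s := s) ho hin hmem).symm
      rw [← hs] at this; exact this
    | RU =>
      rw [h] at hs
      show SameW fin _ (stepP n o (Function.update s i .RU) (insert n B))
      rw [← hs]; exact SameW.refl _
    | BU =>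
      rw [h] at hs
      show SameW fin _ (stepP n o (Function.update s i .BU) (insert n B))
      rw [← hs]; exact SameW.refl _
  refine h1.trans ?_
  have h2 := rule_rU (B := B) (s := Function.update s i (aR (s i))) ho hin (by
    rw [Function.update_self]
    cases s i <;> simp [aR])
  rw [hi] at h2
  exact h2

lemma gap_big (ho : Outer n fin o) {i : ℕ} (hi : n < i) :
    SameW fin (stepP n o s (insert i B)) (stepP n o s B) := by
  apply same_of_local (n := n) (D := ∅) (by intro x; simp)
  intro p hp _
  refine ⟨stepP n o s B p, Val_step ho hp, fun h => h, Ret.one ?_, Ret.one rfl⟩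
  apply stepP_insert
  · rintro rfl
    rcases hp with h | h | ⟨y, _, h⟩
    · exact h
    · have h' : i ≤ n := h; omega
    · exact absurd h (by simp)
  · rintro rfl
    rcases hp with h | h | ⟨y, _, h⟩
    · exact h
    · have h' : i ≤ n := h; omega
    · exact absurd h (by simp)

lemma aL_aR (x : St) : aL (aR x) = aR (aL x) := by cases x <;> rfl

lemma ab_empty : ab n ∅ s = s := by
  funext i; unfold ab; simp

lemma ab_insert_lt {i : ℕ} (hi : i < n) (hB : i ∉ B) :
    ab n (insert i B) s = ab n B (Function.update s i (aL (s i))) := by
  funext k
  unfold ab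
  have hn : (n ∈ insert i B) ↔ n ∈ B := by
    rw [mem_insert]; constructor
    · rintro (h | h)
      · omega
      · exact h
    · exact Or.inr
  by_cases hk : k < n
  · rw [if_pos hk, if_pos hk]
    simp only [hn]
    by_cases hki : k = i
    · subst hki
      simp [hB]
    · simp [hki, mem_insert]
  · rw [if_neg hk, if_neg hk, Function.update_of_ne (by omega)]

lemma ab_insert_n {i : ℕ} (hi : i + 1 = n) (hB : n ∉ B) :
    ab n (insert n B) s = ab n B (Function.update s i (aR (s i))) := by
  funext k
  unfold ab
  by_cases hk : k < n
  · rw [if_pos hk, if_pos hk]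
    have hkB : (k ∈ insert n B) ↔ k ∈ B := by
      rw [mem_insert]; constructor
      · rintro (h | h)
        · omega
        · exact h
      · exact Or.inr
    by_cases hki : k = i
    · subst hki
      have h1 : k + 1 = n ∧ n ∈ insert n B := ⟨hi, mem_insert_self _ _⟩
      have h2 : ¬ (k + 1 = n ∧ n ∈ B) := fun h => hB h.2
      rw [if_pos h1, if_neg h2]
      by_cases h3 : k ∈ B
      · rw [if_pos (hkB.2 h3), if_pos h3, Function.update_self, aL_aR]
      · rw [if_neg (fun h => h3 (hkB.1 h)), if_neg h3, Function.update_self]
    · have h1 : ¬ (k + 1 = n ∧ n ∈ insert n B) := fun h => hki (by omega)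
      have h2 : ¬ (k + 1 = n ∧ n ∈ B) := fun h => hki (by omega)
      rw [if_neg h1, if_neg h2, Function.update_of_ne hki]
      simp only [hkB]
  · rw [if_neg hk, if_neg hk, Function.update_of_ne (by omega)]

lemma ab_insert_gt {i : ℕ} (hi : n < i) : ab n (insert i B) s = ab n B s := by
  funext k
  unfold ab
  by_cases hk : k < n
  · have h1 : (k ∈ insert i B) ↔ k ∈ B := by
      rw [mem_insert]; constructor
      · rintro (h | h)
        · omega
        · exact h
      · exact Or.inr
    have h2 : (n ∈ insert i B) ↔ n ∈ B := by
      rw [mem_insert]; constructor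
      · rintro (h | h)
        · omega
        · exact h
      · exact Or.inr
    simp only [h1, h2]
  · rw [if_neg hk, if_neg hk]

/-- **Absorption of the broken gaps.** -/
lemma absorb_same (ho : Outer n fin o) (hn : 0 < n) (B : Finset ℕ) : ∀ s : ℕ → St,
    SameW fin (stepP n o s B) (stepP n o (ab n B s) ∅) := by
  induction B using Finset.induction_on with
  | empty => intro s; rw [ab_empty]; exact SameW.refl _
  | insert i B hi ih =>
    intro s
    rcases lt_trichotomy i n with h | h | h
    · rw [ab_insert_lt h hi]
      exact (gapL ho h).trans (ih _)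
    · subst h
      have h1 : (i - 1) + 1 = i := by omega
      rw [ab_insert_n h1 hi]
      exact (gapR ho h1).trans (ih _)
    · rw [ab_insert_gt h]
      exact (gap_big ho h).trans (ih _)

/-! ### Functions with the flip rule -/

/-- the flip rule -/
def Flip (n : ℕ) (fin : Set Tm) (o : Port Tm → Port Tm) (F0 : (ℕ → St) → ℂ) : Prop :=
  ∀ s i y, i < n → adj (s i) y = true →
    SameW fin (stepP n o s ∅) (stepP n o (Function.update s i y) ∅) → F0 s = F0 (Function.update s i y)

variable {F0 : (ℕ → St) → ℂ}

lemma flip_one (ho : Outer n fin o) (hn : 0 < n) (hF : Flip n fin o F0) {s s' : ℕ → St}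
    {B B' : Finset ℕ} (hW : SameW fin (stepP n o s B) (stepP n o s' B')) {i : ℕ} (hi : i < n)
    {y : St} (h : ab n B' s' = Function.update (ab n B s) i y) (hadj : adj (ab n B s i) y = true) :
    F0 (ab n B s) = F0 (ab n B' s') := by
  rw [h]
  apply hF _ _ _ hi hadj
  rw [← h]
  exact ((absorb_same ho hn B s).symm.trans hW).trans (absorb_same ho hn B' s')

lemma ab_update {i : ℕ} (hi : i < n) (x : St) : ab n B (Function.update s i x) =
    Function.update (ab n B s) i (if i + 1 = n ∧ n ∈ B then aR (if i ∈ B then aL x else x)
      else (if i ∈ B then aL x else x)) := by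
  funext k
  by_cases hk : k = i
  · subst hk
    rw [Function.update_self]
    unfold ab
    rw [if_pos hi, Function.update_self]
  · rw [Function.update_of_ne hk]
    unfold ab
    rw [Function.update_of_ne hk]

lemma adj_aL {x y : St} (h : adj x y = true) : adj (aL x) (aL y) = true := by
  revert h; cases x <;> cases y <;> simp [adj, aL]

lemma adj_aR {x y : St} (h : adj x y = true) : adj (aR x) (aR y) = true := by
  revert h; cases x <;> cases y <;> simp [adj, aR]

lemma adj_aL_self (x : St) : adj x (aL x) = true := by cases x <;> rfl

lemma adj_aR_self (x : St) : adj x (aR x) = true := by cases x <;> rfl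

lemma adj_refl (x : St) : adj x x = true := by cases x <;> rfl

/-- change of the state of one cap -/
lemma flip_update (ho : Outer n fin o) (hn : 0 < n) (hF : Flip n fin o F0) {s : ℕ → St}
    {B : Finset ℕ} {i : ℕ} (hi : i < n) {x y : St} (hxy : adj x y = true)
    (hW : SameW fin (stepP n o (Function.update s i x) B) (stepP n o (Function.update s i y) B)) :
    F0 (ab n B (Function.update s i x)) = F0 (ab n B (Function.update s i y)) := by
  have h1 : ab n B (Function.update s i y) = Function.update (ab n B (Function.update s i x)) i
      (if i + 1 = n ∧ n ∈ B then aR (if i ∈ B then aL y else y)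
      else (if i ∈ B then aL y else y)) := by
    rw [ab_update hi x, ab_update hi y, Function.update_idem]
  refine flip_one ho hn hF hW hi h1 ?_
  rw [ab_update hi x, Function.update_self]
  split_ifs
  · exact adj_aR (adj_aL hxy)
  · exact adj_aR hxy
  · exact adj_aL hxy
  · exact hxy

/-- change of one gap -/
lemma flip_gap (ho : Outer n fin o) (hn : 0 < n) (hF : Flip n fin o F0) {s : ℕ → St}
    {B : Finset ℕ} {a : ℕ} (hW : SameW fin (stepP n o s (insert a B)) (stepP n o s B)) :
    F0 (ab n (insert a B) s) = F0 (ab n B s) := by
  by_cases haB : a ∈ B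
  · rw [insert_eq_of_mem haB]
  rcases lt_trichotomy a n with h | h | h
  · refine (flip_one ho hn hF hW.symm h (y := ab n (insert a B) s a) ?_ ?_).symm
    · rw [ab_insert_lt h haB, ab_update h, Function.update_self]
    · rw [ab_insert_lt h haB]
      unfold ab
      rw [if_pos h, if_pos h]
      simp only [haB, if_false, Function.update_self]
      split_ifs
      · exact adj_aR (adj_aL_self _)
      · exact adj_aL_self _
  · subst h
    have h1 : (a - 1) + 1 = a := by omega
    have h2 : a - 1 < a := by omega
    refine (flip_one ho hn hF hW.symm h2 (y := ab a (insert a B) s (a - 1)) ?_ ?_).symm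
    · rw [ab_insert_n h1 haB, ab_update h2, Function.update_self]
    · rw [ab_insert_n h1 haB]
      unfold ab
      rw [if_pos h2, if_pos h2]
      have h3 : ¬ (a - 1 + 1 = a ∧ a ∈ B) := fun h => haB h.2
      simp only [h3, if_false, Function.update_self]
      split_ifs
      · rw [aL_aR]; exact adj_aR_self _
      · exact adj_aR_self _
  · rw [ab_insert_gt h]

/-- **The rules for functions with the flip rule.** -/
theorem rules_of_flip (ho : Outer n fin o) (hn : 0 < n) (hF : Flip n fin o F0) :
    Rules n (fun s B => F0 (ab n B s)) where
  rU _ _ _ hi h := flip_gap ho hn hF (rule_rU ho hi h)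
  lU _ _ _ hi h := flip_gap ho hn hF (rule_lU ho hi h)
  rLU s B i hi h := by
    have h1 := rule_rLU (s := s) ho hi h
    have h2 := rule_rBU (s := s) ho hi h
    exact (flip_update ho hn hF hi (x := .LU) (y := .BU) rfl (h1.trans h2.symm)).trans
      (flip_update ho hn hF hi (x := .BU) (y := .K) rfl h2)
  rBU _ _ _ hi h := flip_update ho hn hF hi rfl (rule_rBU ho hi h)
  rRU _ _ _ hi h := flip_update ho hn hF hi rfl (rule_rRU ho hi h)
  lLU _ _ _ hi h := flip_update ho hn hF hi rfl (rule_lLU ho hi h)
  pass s B i hi h := by
    have h1 : F0 (ab n (insert (i + 1) (insert i B)) s) = F0 (ab n (insert i B) s) := by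
      apply flip_gap ho hn hF
      have := rule_pass (B := insert i B) ho hi h
      rw [Finset.insert_idem] at this
      exact this.symm
    have h2 : F0 (ab n (insert i (insert (i + 1) B)) s) = F0 (ab n (insert (i + 1) B) s) := by
      apply flip_gap ho hn hF
      have := rule_pass (B := insert (i + 1) B) ho hi h
      rw [Finset.insert_idem] at this
      exact this
    show F0 (ab n (insert i B) s) = F0 (ab n (insert (i + 1) B) s)
    rw [← h1, ← h2, Finset.insert_comm]

/-- **The planarity rules for functions with the flip rule.** -/
theorem planar_of_flip {ι : Type*} {st : ℕ → ι} {dead vis : ι → Prop} (ho : Outer n fin o)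
    (hs : Strands n o st dead vis) (hn : 0 < n) (hF : Flip n fin o F0) (s : ℕ → St) :
    Planar n (fun s B => F0 (ab n B s)) st dead vis s where
  two S hS B i hi j hj hij h := by
    have hj' := mem_range.1 (hS hj)
    exact flip_gap ho hn hF (rule_two ho hs hij hj' h (by rw [cf_lt (by omega), if_pos hi])
      (by rw [cf_lt hj', if_pos hj]))
  one S hS B i hi hv h := by
    have hi' := mem_range.1 (hS hi)
    have e1 : cf n S s = Function.update (cf n S s) i .UC := by
      have : cf n S s i = .UC := by rw [cf_lt hi', if_pos hi]
      rw [← this, Function.update_eq_self]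
    have e2 : cf n (S.erase i) s = Function.update (cf n S s) i .K := by
      funext a
      by_cases ha : a = i
      · subst ha; rw [cf_lt hi', if_neg (notMem_erase a S)]; simp
      · rw [Function.update_of_ne ha]
        rcases Nat.lt_or_ge a n with h1 | h1
        · rw [cf_lt h1, cf_lt h1]
          simp [mem_erase, ha]
        · rw [cf_ge h1, cf_ge h1]
    show F0 (ab n B (cf n S s)) = F0 (ab n B (cf n (S.erase i) s))
    rw [e2]
    conv_lhs => rw [e1]
    refine flip_update ho hn hF hi' rfl (rule_one ho hs hi' hv ?_)
    intro k hk h1 h2
    rw [cf_lt hk, if_neg]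
    intro h3
    exact h2 (h k h3 h1)
  fin S hS B i hi hd := by
    have hi' := mem_range.1 (hS hi)
    exact flip_gap ho hn hF (rule_fin ho hs hi' hd (by rw [cf_lt hi', if_pos hi]))

end Pool.Agent.Q1.M6a.T2
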