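import Mathlib
import Pool.Agent.Q1.M6a.T2Flip

set_option autoImplicit false
open Finset

/-! # The double row, tile by tile

A cap has four tiles: upper left, upper right, lower left, lower right. `true` is the state west-north,
south-east (weight `a` in the lower row, `1 - 1/a` in the upper row), `false` the state west-south,
north-east. -/

namespace Pool.Agent.Q1.M6a.T2

open Port

/-- states of the tiles upper left, upper right, lower left, lower right -/
abbrev TQ : Type := Bool × Bool × Bool × Bool

/-- the wiring state of the cap -/
def stq : TQ → St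
  | (false, true, false, true) => .K
  | (false, false, false, true) => .UC
  | (true, false, _, _) => .UC
  | (true, true, false, true) => .UC
  | (false, false, _, _) => .LU
  | (true, true, _, _) => .RU
  | (false, true, _, _) => .BU

/-- weight of the four tiles -/
noncomputable def wq (a : ℂ) (q : TQ) : ℂ :=
  (if q.1 then 1 - 1 / a else 1 / a) * (if q.2.1 then 1 - 1 / a else 1 / a) *
    ((if q.2.2.1 then a else 1 - a) * (if q.2.2.2 then a else 1 - a))

lemma sum_TQ (f : TQ → ℂ) : ∑ q : TQ, f q =
    f (false, false, false, false) + f (false, false, false, true) +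
    f (false, false, true, false) + f (false, false, true, true) +
    f (false, true, false, false) + f (false, true, false, true) +
    f (false, true, true, false) + f (false, true, true, true) +
    f (true, false, false, false) + f (true, false, false, true) +
    f (true, false, true, false) + f (true, false, true, true) +
    f (true, true, false, false) + f (true, true, false, true) +
    f (true, true, true, false) + f (true, true, true, true) := by
  simp only [Fintype.sum_prod_type, Fintype.sum_bool]
  ring

/-- **The weights of the five states.** -/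
lemma sum_wq {a : ℂ} (ha : a ≠ 0) (f : St → ℂ) : ∑ q : TQ, wq a q * f (stq q) =
    ∑ x : St, wt (a + 1 / a - 1) ((a + 1 / a - 1) / a) x * f x := by
  rw [sum_TQ, sum_St]
  simp only [wq, wt, stq, if_true, Bool.false_eq_true, if_false]
  field_simp
  ring

/-- at most one tile differs -/
def near (q q' : TQ) : Bool :=
  decide ((if q.1 = q'.1 then 0 else 1) + (if q.2.1 = q'.2.1 then 0 else 1) +
    (if q.2.2.1 = q'.2.2.1 then 0 else 1) + (if q.2.2.2 = q'.2.2.2 then 0 else 1) ≤ 1)

/-- a standard representative -/
def rep : St → TQ
  | .K => (false, true, false, true)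
  | .UC => (true, false, false, true)
  | .LU => (false, false, true, false)
  | .RU => (true, true, true, false)
  | .BU => (false, true, true, false)

lemma stq_rep (x : St) : stq (rep x) = x := by cases x <;> rfl

lemma rep_chain : ∀ q : TQ, ∃ q1 : TQ, near q q1 = true ∧ near q1 (rep (stq q)) = true ∧
    stq q1 = stq q := by decide

lemma near_symm : ∀ q q' : TQ, near q q' = near q' q := by decide

lemma adj_near : ∀ x y : St, adj x y = true → ∃ q q' : TQ, stq q = x ∧ stq q' = y ∧
    near q q' = true := by decide

variable {Tm : Type*} {n : ℕ} {fin : Set Tm} {o : Port Tm → Port Tm}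

/-- the flip rule for the tiles -/
def TFlip (n : ℕ) (fin : Set Tm) (o : Port Tm → Port Tm) (G : (ℕ → TQ) → ℂ) : Prop :=
  ∀ b i q, i < n → near (b i) q = true →
    SameW fin (stepP n o (fun k => stq (b k)) ∅)
      (stepP n o (Function.update (fun k => stq (b k)) i (stq q)) ∅) →
    G b = G (Function.update b i q)

variable {G : (ℕ → TQ) → ℂ}

lemma stq_update (b : ℕ → TQ) (i : ℕ) (q : TQ) : (fun k => stq (Function.update b i q k)) =
    Function.update (fun k => stq (b k)) i (stq q) := by
  funext k
  by_cases h : k = i
  · subst h; simp
  · simp [h]

lemma G_near_class (hG : TFlip n fin o G) (b : ℕ → TQ) {i : ℕ} (hi : i < n) {q : TQ}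
    (h : near (b i) q = true) (hst : stq q = stq (b i)) : G b = G (Function.update b i q) := by
  apply hG b i q hi h
  rw [hst]
  have : Function.update (fun k => stq (b k)) i (stq (b i)) = fun k => stq (b k) :=
    Function.update_eq_self i _
  rw [this]
  exact SameW.refl _

/-- to the representative -/
lemma G_rep (hG : TFlip n fin o G) (b : ℕ → TQ) {i : ℕ} (hi : i < n) :
    G b = G (Function.update b i (rep (stq (b i)))) := by
  obtain ⟨q1, h1, h2, h3⟩ := rep_chain (b i)
  have e1 := G_near_class hG b hi h1 h3
  have e2 := G_near_class hG (Function.update b i q1) hi (q := rep (stq (b i)))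
    (by rw [Function.update_self]; exact h2) (by rw [Function.update_self, stq_rep, h3])
  rw [Function.update_idem] at e2
  exact e1.trans e2

lemma G_class (hG : TFlip n fin o G) (b : ℕ → TQ) {i : ℕ} (hi : i < n) {q : TQ}
    (h : stq q = stq (b i)) : G b = G (Function.update b i q) := by
  have e1 := G_rep hG b hi
  have e2 := G_rep hG (Function.update b i q) hi
  rw [Function.update_self, Function.update_idem, h] at e2
  exact e1.trans e2.symm

/-- the function of the states of the caps -/
def F0of (G : (ℕ → TQ) → ℂ) (s : ℕ → St) : ℂ := G (fun i => rep (s i))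

lemma flip_of_tflip (hG : TFlip n fin o G) : Flip n fin o (F0of G) := by
  intro s i y hi hadj hW
  obtain ⟨q, q', hq, hq', hqq⟩ := adj_near _ _ hadj
  unfold F0of
  have e0 : ∀ k, (fun k => stq (rep (s k))) k = s k := fun k => stq_rep _
  have e1 := G_class hG (fun i => rep (s i)) hi (q := q) (by rw [hq, stq_rep])
  have hb : (fun k => stq (Function.update (fun i => rep (s i)) i q k)) = s := by
    rw [stq_update, hq]
    funext k
    by_cases h : k = i
    · subst h; simp
    · rw [Function.update_of_ne h]; exact stq_rep _
  have e2 := hG (Function.update (fun i => rep (s i)) i q) i q' hi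
    (by rw [Function.update_self]; exact hqq) (by rw [hb, hq']; exact hW)
  rw [Function.update_idem] at e2
  have e3 := G_class hG (Function.update (fun i => rep (s i)) i q') hi (q := rep y)
    (by rw [Function.update_self, stq_rep, hq'])
  rw [Function.update_idem] at e3
  have e4 : Function.update (fun i => rep (s i)) i (rep y) =
      fun k => rep (Function.update s i y k) := by
    funext k
    by_cases h : k = i
    · subst h; simp
    · simp [h]
  rw [e1, e2, e3, e4]

lemma G_eq (hG : TFlip n fin o G) (b : ℕ → TQ) (hb : ∀ i, n ≤ i → b i = rep (stq (b i))) :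
    G b = F0of G (fun i => stq (b i)) := by
  have key : ∀ m, m ≤ n → G b = G (fun i => if i < m then rep (stq (b i)) else b i) := by
    intro m
    induction m with
    | zero => intro _; simp
    | succ m ih =>
      intro hm
      rw [ih (by omega), G_rep hG _ (show m < n by omega)]
      congr 1
      funext i
      by_cases h : i = m
      · subst h; simp
      · rw [Function.update_of_ne h]
        by_cases h1 : i < m
        · rw [if_pos h1, if_pos (by omega)]
        · rw [if_neg h1, if_neg (by omega)]
  rw [key n le_rfl]
  unfold F0of
  congr 1
  funext i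
  by_cases h : i < n
  · rw [if_pos h]
  · rw [if_neg h]; exact hb i (by omega)

/-- sum over the states of the tiles of the caps `< m` -/
noncomputable def Y (a : ℂ) (G : (ℕ → TQ) → ℂ) : ℕ → (ℕ → TQ) → ℂ
  | 0, b => G b
  | m + 1, b => ∑ q : TQ, wq a q * Y a G m (Function.update b m q)

/-- **The sum over the tiles is the sum over the states of the caps.** -/
theorem Y_eq {a : ℂ} (ha : a ≠ 0) (hG : TFlip n fin o G) : ∀ m, m ≤ n → ∀ b : ℕ → TQ,
    (∀ i, n ≤ i → b i = rep (stq (b i))) →
    Y a G m b = X (fun _ => a + 1 / a - 1) (fun _ => (a + 1 / a - 1) / a)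
      (fun s B => F0of G (ab n B s)) m (fun i => stq (b i)) ∅ := by
  intro m
  induction m with
  | zero =>
    intro _ b hb
    show G b = F0of G (ab n ∅ (fun i => stq (b i)))
    rw [ab_empty]; exact G_eq hG b hb
  | succ m ih =>
    intro hm b hb
    simp only [Y, X]
    rw [← sum_wq ha (fun x => X (fun _ => a + 1 / a - 1) (fun _ => (a + 1 / a - 1) / a)
      (fun s B => F0of G (ab n B s)) m (Function.update (fun i => stq (b i)) m x) ∅)]
    refine Finset.sum_congr rfl fun q _ => ?_
    congr 1
    rw [ih (by omega), stq_update]
    intro i hi
    rw [Function.update_of_ne (by omega)]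
    exact hb i hi

end Pool.Agent.Q1.M6a.T2
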